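import Pool.Agent.Helper82.HB.GoalsB
import Pool.Agent.Helper45.HS.MatC
import Pool.Agent.Helper99.RK.NATC

/-! # HB: calculus of rectangular matrix fields, goals RCAL and ECAL -/

open Complex Metric Set Filter Topology MeasureTheory
open scoped ContDiff ComplexConjugate ComplexOrder Manifold Matrix

namespace Pool.Agent.Helper82.HB

open Pool.Agent.Helper95.Lin Pool.Agent.Helper16.Abund Pool.Agent.Helper92.Orb
  Pool.Agent.Helper10.SP Pool.Agent.Helper95.RK Pool.Agent.Helper57.HS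
open Pool.Agent.Helper45.HS (SmM cd_congr' cd_sum'' cd_mul'' cd_const'' posDef_det)

/-- A smooth field of rectangular matrices on `W`. -/
def SmR {n p q : ℕ} (X : Cn n → Matrix (Fin p) (Fin q) ℂ) (W : Set (Cn n)) : Prop :=
  ∀ i j, ContDiffOn ℝ ∞ (fun x => X x i j) W

variable {n p q s : ℕ} {W : Set (Cn n)} {X X' : Cn n → Matrix (Fin p) (Fin q) ℂ}
  {Y : Cn n → Matrix (Fin q) (Fin s) ℂ} {x : Cn n}

theorem SmR.mul (hX : SmR X W) (hY : SmR Y W) : SmR (fun x => X x * Y x) W := by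
  intro i j
  simp only [Matrix.mul_apply]
  exact ContDiffOn.sum fun p _ => (hX i p).mul (hY p j)

theorem SmR.add (hX : SmR X W) (hY : SmR X' W) : SmR (fun x => X x + X' x) W :=
  fun i j => (hX i j).add (hY i j)

theorem SmR.sub (hX : SmR X W) (hY : SmR X' W) : SmR (fun x => X x - X' x) W :=
  fun i j => (hX i j).sub (hY i j)

theorem SmR.neg (hX : SmR X W) : SmR (fun x => - X x) W :=
  fun i j => (hX i j).neg

theorem SmR.conjTranspose (hX : SmR X W) : SmR (fun x => (X x)ᴴ) W := by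
  intro i j
  have h := hX j i
  exact Complex.conjCLE.contDiff.comp_contDiffOn h

theorem SmR.cdR (hW : IsOpen W) (hX : SmR X W) (k : Fin n) : SmR (cdR k X) W :=
  fun i j => Wirt.cd_smooth hW (hX i j) k

theorem SmR.cdbR (hW : IsOpen W) (hX : SmR X W) (k : Fin n) : SmR (cdbR k X) W :=
  fun i j => Wirt.cdb_smooth hW (hX i j) k

theorem SmR.contOn (hX : SmR X W) : ContinuousOn X W :=
  continuousOn_pi.2 fun i => continuousOn_pi.2 fun j => (hX i j).continuousOn

theorem SmR.of_holo (hW : IsOpen W) (h : ∀ i j, DifferentiableOn ℂ (fun x => X x i j) W) :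
    SmR X W := fun i j => holo_contDiffOn_real hW (h i j)

theorem cdR_congr (hW : IsOpen W) (hx : x ∈ W) (h : ∀ y ∈ W, X y = X' y) (k : Fin n) :
    cdR k X x = cdR k X' x := by
  ext i j
  exact (cd_congr' hW hx (fun y hy => by rw [h y hy]) k).1

theorem cdbR_congr (hW : IsOpen W) (hx : x ∈ W) (h : ∀ y ∈ W, X y = X' y) (k : Fin n) :
    cdbR k X x = cdbR k X' x := by
  ext i j
  exact (cd_congr' hW hx (fun y hy => by rw [h y hy]) k).2

theorem cdR_mul (hW : IsOpen W) (hx : x ∈ W) (hX : SmR X W) (hY : SmR Y W) (k : Fin n) :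
    cdR k (fun y => X y * Y y) x = cdR k X x * Y x + X x * cdR k Y x := by
  ext i j
  simp only [cdR, Matrix.of_apply, Matrix.mul_apply, Matrix.add_apply]
  rw [(cd_sum'' hW hx Finset.univ (fun p _ => (hX i p).mul (hY p j)) k).1,
    ← Finset.sum_add_distrib]
  refine Finset.sum_congr rfl fun p _ => ?_
  rw [(cd_mul'' hW hx (hX i p) (hY p j) k).1]

theorem cdbR_mul (hW : IsOpen W) (hx : x ∈ W) (hX : SmR X W) (hY : SmR Y W) (k : Fin n) :
    cdbR k (fun y => X y * Y y) x = cdbR k X x * Y x + X x * cdbR k Y x := by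
  ext i j
  simp only [cdbR, Matrix.of_apply, Matrix.mul_apply, Matrix.add_apply]
  rw [(cd_sum'' hW hx Finset.univ (fun p _ => (hX i p).mul (hY p j)) k).2,
    ← Finset.sum_add_distrib]
  refine Finset.sum_congr rfl fun p _ => ?_
  rw [(cd_mul'' hW hx (hX i p) (hY p j) k).2]

theorem cdR_add (hW : IsOpen W) (hx : x ∈ W) (hX : SmR X W) (hY : SmR X' W) (k : Fin n) :
    cdR k (fun y => X y + X' y) x = cdR k X x + cdR k X' x := by
  ext i j
  exact ((Wirt.wirt W hW _ _ (hX i j) (hY i j)).2.1 k x hx).1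

theorem cdbR_add (hW : IsOpen W) (hx : x ∈ W) (hX : SmR X W) (hY : SmR X' W) (k : Fin n) :
    cdbR k (fun y => X y + X' y) x = cdbR k X x + cdbR k X' x := by
  ext i j
  exact ((Wirt.wirt W hW _ _ (hX i j) (hY i j)).2.1 k x hx).2

theorem cdbR_neg (hW : IsOpen W) (hx : x ∈ W) (hX : SmR X W) (k : Fin n) :
    cdbR k (fun y => - X y) x = - cdbR k X x := by
  have h := cdbR_add hW hx hX hX.neg k
  have h1 : cdbR k (fun y => X y + - X y) x = 0 := by
    ext i j
    have h2 : (fun y => (X y + - X y) i j) = fun _ => (0 : ℂ) := by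
      funext y; simp
    show cdb k (fun y => (X y + - X y) i j) x = 0
    rw [h2]
    exact (cd_const'' 0 k).2
  rw [h1] at h
  exact (neg_eq_of_add_eq_zero_right h.symm).symm

theorem cdbR_sub (hW : IsOpen W) (hx : x ∈ W) (hX : SmR X W) (hY : SmR X' W) (k : Fin n) :
    cdbR k (fun y => X y - X' y) x = cdbR k X x - cdbR k X' x := by
  have h : (fun y => X y - X' y) = fun y => X y + (fun z => - X' z) y := by
    funext y; simp [sub_eq_add_neg]
  rw [h, cdbR_add hW hx hX hY.neg, cdbR_neg hW hx hY, sub_eq_add_neg]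

theorem cdR_conjTranspose (hW : IsOpen W) (hx : x ∈ W) (hX : SmR X W) (k : Fin n) :
    cdR k (fun y => (X y)ᴴ) x = (cdbR k X x)ᴴ := by
  ext i j
  exact ((Wirt.wirt W hW _ _ (hX j i) (hX j i)).2.2.2.1 k x hx).1

theorem cdbR_conjTranspose (hW : IsOpen W) (hx : x ∈ W) (hX : SmR X W) (k : Fin n) :
    cdbR k (fun y => (X y)ᴴ) x = (cdR k X x)ᴴ := by
  ext i j
  exact ((Wirt.wirt W hW _ _ (hX j i) (hX j i)).2.2.2.1 k x hx).2

theorem cdR_cdbR (hW : IsOpen W) (hx : x ∈ W) (hX : SmR X W) (k l : Fin n) :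
    cdR k (cdbR l X) x = cdbR l (cdR k X) x := by
  ext i j
  exact ((Wirt.wirt W hW _ _ (hX i j) (hX i j)).2.2.2.2.1 k l x hx).2.2

theorem cdbR_holo (hW : IsOpen W) (hx : x ∈ W)
    (h : ∀ i j, DifferentiableOn ℂ (fun x => X x i j) W) (l : Fin n) : cdbR l X x = 0 := by
  ext i j
  exact Pool.Agent.Helper99.RK.holo_cdb hW (h i j) l hx

theorem cdbR_cdR_holo (hW : IsOpen W) (hx : x ∈ W)
    (h : ∀ i j, DifferentiableOn ℂ (fun x => X x i j) W) (k l : Fin n) :
    cdbR l (cdR k X) x = 0 := by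
  rw [← cdR_cdbR hW hx (SmR.of_holo hW h)]
  have h1 : cdR k (cdbR l X) x = cdR k (fun _ => 0) x :=
    cdR_congr hW hx (fun y hy => cdbR_holo hW hy h l) k
  rw [h1]
  ext i j
  exact (cd_const'' 0 k).1

/-- RCAL. -/
theorem rcal : S_RCAL := by
  intro n p q s W hW A B hA hB
  exact ⟨SmR.mul (X := A) (Y := B) hA hB, SmR.conjTranspose (X := A) hA,
    fun k i j => ⟨SmR.cdR (X := A) hW hA k i j, SmR.cdbR (X := A) hW hA k i j⟩,
    fun x hx k => ⟨cdR_mul hW hx hA hB k, cdbR_mul hW hx hA hB k,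
      cdR_conjTranspose hW hx hA k, cdbR_conjTranspose hW hx hA k,
      fun l => cdR_cdbR hW hx hA k l⟩,
    fun h x hx l => ⟨cdbR_holo hW hx h l, fun k => cdbR_cdR_holo hW hx h k l⟩⟩

/-! ## The connection of `h` -/

section conn

variable {m : ℕ} {h : Cn n → Matrix (Fin m) (Fin m) ℂ}

open Pool.Agent.Helper45.HS in
theorem gamE_smooth (hW : IsOpen W) (hs : SmM h W) (hp : ∀ x ∈ W, (h x).PosDef) (k : Fin n) :
    SmM (GamE h k) W :=
  SmM.mul (hs.cdM hW k) (hs.inv fun x hx => posDef_det (hp x hx))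

open Pool.Agent.Helper45.HS in
theorem RE_smooth (hW : IsOpen W) (hs : SmM h W) (hp : ∀ x ∈ W, (h x).PosDef) (k l : Fin n) :
    SmM (RE h k l) W :=
  (gamE_smooth hW hs hp k).cdbM hW l

theorem gamE_mul (hp : (h x).PosDef) (k : Fin n) : GamE h k x * h x = cdM k h x := by
  unfold GamE
  rw [Matrix.mul_assoc, Matrix.nonsing_inv_mul _ (isUnit_iff_ne_zero.2 (posDef_det hp)),
    Matrix.mul_one]

open Pool.Agent.Helper45.HS in
theorem cdbM_herm (hW : IsOpen W) (hs : SmM h W) (hh : ∀ x ∈ W, (h x).IsHermitian)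
    (hx : x ∈ W) (l : Fin n) : cdbM l h x = (cdM l h x)ᴴ := by
  rw [← cdbM_conjTranspose hW hx hs l]
  exact cdbM_congr hW hx (fun y hy => (hh y hy).eq.symm) l

open Pool.Agent.Helper45.HS in
theorem cdbM_E (hW : IsOpen W) (hs : SmM h W) (hp : ∀ x ∈ W, (h x).PosDef) (hx : x ∈ W)
    (l : Fin n) : cdbM l h x = h x * (GamE h l x)ᴴ := by
  rw [cdbM_herm hW hs (fun y hy => (hp y hy).isHermitian) hx l, ← gamE_mul (hp x hx) l,
    Matrix.conjTranspose_mul, (hp x hx).isHermitian.eq]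

open Pool.Agent.Helper45.HS in
theorem RE_mul (hW : IsOpen W) (hs : SmM h W) (hp : ∀ x ∈ W, (h x).PosDef) (hx : x ∈ W)
    (k l : Fin n) :
    RE h k l x * h x = cdbM l (cdM k h) x - GamE h k x * h x * (GamE h l x)ᴴ := by
  have h1 : cdbM l (cdM k h) x = cdbM l (fun y => GamE h k y * h y) x :=
    cdbM_congr hW hx (fun y hy => (gamE_mul (hp y hy) k).symm) l
  rw [h1, cdbM_mul hW hx (gamE_smooth hW hs hp k) hs l, cdbM_E hW hs hp hx l, RE]
  simp only [Matrix.mul_assoc, add_sub_cancel_right]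

open Pool.Agent.Helper45.HS in
theorem RE_herm (hW : IsOpen W) (hs : SmM h W) (hp : ∀ x ∈ W, (h x).PosDef) (hx : x ∈ W)
    (k l : Fin n) : (RE h k l x * h x)ᴴ = RE h l k x * h x := by
  rw [RE_mul hW hs hp hx k l, RE_mul hW hs hp hx l k, Matrix.conjTranspose_sub]
  congr 1
  · rw [← cdM_conjTranspose hW hx (hs.cdM hW k) l]
    have h1 : cdM l (fun y => (cdM k h y)ᴴ) x = cdM l (cdbM k h) x :=
      cdM_congr hW hx (fun y hy => (cdbM_herm hW hs (fun z hz => (hp z hz).isHermitian) hy k).symm) l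
    rw [h1]
    exact cdR_cdbR hW hx hs l k
  · rw [Matrix.conjTranspose_mul, Matrix.conjTranspose_mul, Matrix.conjTranspose_conjTranspose,
      (hp x hx).isHermitian.eq, Matrix.mul_assoc]

end conn

/-- ECAL. -/
theorem ecal : S_ECAL := by
  intro n m W hW h hp hs
  exact ⟨fun k => gamE_smooth hW hs hp k, fun k l => RE_smooth hW hs hp k l,
    fun x hx => ⟨fun k => (gamE_mul (hp x hx) k).symm, fun l => cdbM_E hW hs hp hx l,
      fun k l => ⟨RE_mul hW hs hp hx k l, RE_herm hW hs hp hx k l⟩⟩⟩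

end Pool.Agent.Helper82.HB
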