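import Pool.Agent.Helper82.HB.Defs

/-!
# HB, goals B: Chern–Lu, volume, exact metrics, rigidity, output

`t = tS σ h Q = tr (g Q⁻¹)`, `K = Q⁻¹`, `Γ_k = GamE h k`, `Γ'_k = Gam Q k`, `τ_k = tauS σ h Q k`, `β = (σ P) h (σ P)ᴴ`,
`g' = (σ (1 - P)) h (σ (1 - P))ᴴ`. All goals of `Helper10/SP`, `Helper95/Lin`, `Helper15/HS/GoalsC.lean`,
`Helper95/HS/GoalsA.lean`, `GoalsB.lean`, `Helper15/GS/GoalsD.lean`, `GoalsE.lean` which do not mention `GDat`, the goals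
`S_RSC`, `S_RVZ`, `S_RDL` of `Helper10/RBC/Goals.lean`, `S_RWT`, `S_RAC`, `S_RLG` of `Helper57/RBC/Goals2.lean` and `S_RFAM` are
proved (or nearly) and may be used as hypotheses. A ≤ B means that `B - A` is positive semidefinite.
-/

open Complex Metric Set Filter Topology MeasureTheory
open scoped ContDiff ComplexConjugate ComplexOrder Manifold Matrix

namespace Pool.Agent.Helper82.HB

open Pool.Agent.Helper95.Lin Pool.Agent.Helper16.Abund Pool.Agent.Helper92.Orb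
  Pool.Agent.Helper10.SP Pool.Agent.Helper95.RK Pool.Agent.Helper57.HS
  Pool.Agent.Helper15.HS Pool.Agent.Helper15.GS Pool.Agent.Helper57.RBC
open Pool.Agent.Helper10.RBC (dn)

universe u v

/-! ## 1. Calculus and the Chern–Lu identity -/

/-- RCAL. Calculus of rectangular matrix fields. USES: WIRT, MCAL.
PROOF. Entrywise from `WIRT` (product rule for `∑ a, A i a * B a j`); `cdM`, `cdbM` are `cdR`, `cdbR` for square matrices (`rfl`). (4)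
`h * h⁻¹ = 1`, `Γ_k = cdM k h * h⁻¹`; `cdbM l h = (cdM l h)ᴴ` as `h` is Hermitian. -/
def S_RCAL : Prop := ∀ {n p q s : ℕ} (W : Set (Cn n)), IsOpen W →
  ∀ (A : Cn n → Matrix (Fin p) (Fin q) ℂ) (B : Cn n → Matrix (Fin q) (Fin s) ℂ),
  (∀ i j, ContDiffOn ℝ ∞ (fun x => A x i j) W) → (∀ i j, ContDiffOn ℝ ∞ (fun x => B x i j) W) →
  (∀ i j, ContDiffOn ℝ ∞ (fun x => (A x * B x) i j) W) ∧
  (∀ i j, ContDiffOn ℝ ∞ (fun x => (A x)ᴴ i j) W) ∧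
  (∀ k i j, ContDiffOn ℝ ∞ (fun x => cdR k A x i j) W ∧
    ContDiffOn ℝ ∞ (fun x => cdbR k A x i j) W) ∧
  (∀ x ∈ W, ∀ k, cdR k (fun y => A y * B y) x = cdR k A x * B x + A x * cdR k B x ∧
    cdbR k (fun y => A y * B y) x = cdbR k A x * B x + A x * cdbR k B x ∧
    cdR k (fun y => (A y)ᴴ) x = (cdbR k A x)ᴴ ∧ cdbR k (fun y => (A y)ᴴ) x = (cdR k A x)ᴴ ∧
    ∀ l, cdR k (cdbR l A) x = cdbR l (cdR k A) x) ∧
  ((∀ i j, DifferentiableOn ℂ (fun x => A x i j) W) → ∀ x ∈ W, ∀ l, cdbR l A x = 0 ∧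
    (∀ k, cdbR l (cdR k A) x = 0))

/-- ECAL. The connection of `h`. USES: MCAL (for `m × m` matrices), RCAL.
PROOF. `Γ_k h = cdM k h`; `cdbM l h = (cdM l h)ᴴ = h Γ_lᴴ`; `crv`-symmetry: `RE k l h = cdbM l (cdM k h) - Γ_k cdbM l h = cdbM l (cdM k h) - Γ_k h Γ_lᴴ`, and its
adjoint is the same expression with `k, l` exchanged. -/
def S_ECAL : Prop := ∀ {n m : ℕ} (W : Set (Cn n)), IsOpen W →
  ∀ h : Cn n → Matrix (Fin m) (Fin m) ℂ, (∀ x ∈ W, (h x).PosDef) →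
  (∀ a b, ContDiffOn ℝ ∞ (fun x => h x a b) W) →
  (∀ k a b, ContDiffOn ℝ ∞ (fun x => GamE h k x a b) W) ∧
  (∀ k l a b, ContDiffOn ℝ ∞ (fun x => RE h k l x a b) W) ∧
  ∀ x ∈ W, (∀ k, cdM k h x = GamE h k x * h x) ∧ (∀ l, cdbM l h x = h x * (GamE h l x)ᴴ) ∧
    ∀ k l, RE h k l x * h x = cdbM l (cdM k h) x - GamE h k x * h x * (GamE h l x)ᴴ ∧
      (RE h k l x * h x)ᴴ = RE h l k x * h x

/-- SCL. The Chern–Lu identity along `σ`. USES: RCAL, ECAL, MCAL, CSY, WIRT, TRI, RHOI, KETP, IFN.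
PROOF. `K := Q⁻¹`, `Γ'_k := Gam Q k`. (0) `g` is smooth (`RCAL`) and invariant, so `t` is `InvF` (`TRI` (1)); `0 ≤ t`. (1) `cdR k (σᴴ) = (cdbR k σ)ᴴ = 0`, `cdM k K = -
K Γ'_k` (`MCAL`, `cdM k Q = Γ'_k Q`): `cdM k (g K) = (cdR k σ + σ Γ_k) h σᴴ K - g K Γ'_k`, so `cd k t = tr (τ_k h σᴴ K)`. (2) `cdbR l (h σᴴ K) = h Γ_lᴴ σᴴ K + h (cdR l σ)ᴴ K - h σᴴ Γ'_lᴴ K =
h τ_lᴴ K` (`cdbM l K = - K (cdbM l Q) K = - Γ'_lᴴ K`). (3) `cdbR l τ_k = σ RE k l - (cdbM l Γ'_k) σ`. (4) So `cdb l (cd k t) = tr (σ RE k l h σᴴ K) - tr ((cdbM l Γ'_k) g K) + tr (τ_k h τ_lᴴ K)`;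
multiply by `K l k` and sum: `∑ K l k (- cdbM l Γ'_k) = - rho Q K = - (Q - η) K` (`CSY` last item, as in `CLG`): this is `trL Q t` (`LM t k l = cdb l (cd k t)`). (5) `K = Sᴴ S`, `K l k =
∑ a, conj (S a l) S a k`, `Z_a := ∑ k, S a k • τ_k`, `h = y yᴴ`: `AAs = ∑ a, tr ((S Z_a y)(S Z_a y)ᴴ) ≥ 0`; `∑ k, S a k cd k t = tr (Z_a h σᴴ K) = tr ((S Z_a y)(S σ y)ᴴ)` and Cauchy–Schwarz (as
`AAPS`). `NKs = ∑ a b, ..`: `K = ∑ b, s_bᴴ s_b` (rows `s_b` of `S`): `tr (σ RE h σᴴ K) = ∑ b, s_b σ RE h σᴴ s_bᴴ`, and for each `a, b` the sum over `k, l` is `≥ 0` by `neg`. (6) Continuity from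
`RCAL`, `ECAL`, `MCAL`. Invariance of `AAs + NKs = trL Q t + t - tr (η K g K)`: `KETP` (last item), `TRI` (1), and `tr (η K g K)` for the invariant forms `η = Q - rho Q` (`RHOI`) and `g` (`IFN`: `Y Q⁻¹ =
J (Y Q⁻¹)(y) J⁻¹`). -/
def S_SCL : Prop := ∀ {n m : ℕ} (T : Set (Cn n)) {G : Type u} [Group G]
  (R : G → Cn n → Cn n → Prop) (σ : Cn n → Matrix (Fin n) (Fin m) ℂ)
  (h : Cn n → Matrix (Fin m) (Fin m) ℂ), SD T R σ h →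
  ∀ Q η : Cn n → Matrix (Fin n) (Fin n) ℂ, KEt T R Q → (∀ x ∈ T, rho Q x = Q x - η x) →
  (∀ i j, ContDiffOn ℝ ∞ (fun x => gS σ h x i j) T) ∧ InvF T R (tS σ h Q) ∧
  ContinuousOn (AAs σ h Q) T ∧ ContinuousOn (NKs σ h Q) T ∧
  (∀ γ x y, R γ x y → AAs σ h Q y + NKs σ h Q y = AAs σ h Q x + NKs σ h Q x) ∧
  ∀ x ∈ T, (gS σ h x).PosSemidef ∧ 0 ≤ tS σ h Q x ∧ 0 ≤ AAs σ h Q x ∧ 0 ≤ NKs σ h Q x ∧
  (∀ k, cd k (fun y => ((tS σ h Q y : ℝ) : ℂ)) x =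
    Matrix.trace (tauS σ h Q k x * h x * (σ x)ᴴ * (Q x)⁻¹)) ∧
  (∀ l, cdbR l (fun y => h y * (σ y)ᴴ * (Q y)⁻¹) x = h x * (tauS σ h Q l x)ᴴ * (Q x)⁻¹) ∧
  (trL Q (tS σ h Q) x).re = - tS σ h Q x +
    (Matrix.trace (η x * (Q x)⁻¹ * gS σ h x * (Q x)⁻¹)).re + AAs σ h Q x + NKs σ h Q x ∧
  (∑ k, ∑ l, (Q x)⁻¹ l k * (cd k (fun y => ((tS σ h Q y : ℝ) : ℂ)) x *
    conj (cd l (fun y => ((tS σ h Q y : ℝ) : ℂ)) x))).re ≤ tS σ h Q x * AAs σ h Q x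

/-- SLG. The differential inequalities. USES: SCL, CHN (Helper95 GoalsA).
PROOF. `tr (η K g K) ≥ 0` for `η, g ≥ 0`. So `trL Q t ≥ - t + AAs`. `CHN` for `log (t + δ)`: `trL Q (log (t + δ)) = (trL Q t)/(t + δ) - (t + δ)⁻² ∑ K l k cd k t conj(cd l t) ≥ (- t + AAs)/(t + δ) -
t AAs/(t + δ)² ≥ -1`. -/
def S_SLG : Prop := ∀ {n m : ℕ} (T : Set (Cn n)) {G : Type u} [Group G]
  (R : G → Cn n → Cn n → Prop) (σ : Cn n → Matrix (Fin n) (Fin m) ℂ)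
  (h : Cn n → Matrix (Fin m) (Fin m) ℂ), SD T R σ h →
  ∀ Q η : Cn n → Matrix (Fin n) (Fin n) ℂ, KEt T R Q → (∀ x ∈ T, (η x).PosSemidef) →
  (∀ x ∈ T, rho Q x = Q x - η x) → (∀ x ∈ T, - tS σ h Q x ≤ (trL Q (tS σ h Q) x).re) ∧
  ∀ δ : ℝ, 0 < δ → InvF T R (fun x => tS σ h Q x + δ) ∧ ∀ x ∈ T,
    -1 ≤ (trL Q (fun y => Real.log (tS σ h Q y + δ)) x).re

/-- SBET. The forms `β` and `g'`. USES: RCAL, ECAL, MCAL.
PROOF. (1) `PARP`-argument for `m × m` matrices: `P h = h Pᴴ` is Hermitian, `cdbM l (P h) = P h Γ_lᴴ` (`P` holomorphic), so `cdM l (P h) = Γ_l P h` and `cdM l P = Γ_l P - P Γ_l`; apply `cdbM k` (it kills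
`cdM l P`): `RE l k P = P RE l k = 0`. (2) `σ P`, `σ (1 - P)` are holomorphic. `(1 - P) RE (1 - P) = RE`: the curvature form along `σ (1 - P)` is the one along `σ`: `(1 - P) RE h (1 - P)ᴴ = (1 - P) RE (1 - P) h = RE h`
and for `σ P` it is `0`. (3) `P h Pᴴ = P h`, `(1 - P) h (1 - P)ᴴ = (1 - P) h`: `g = β + g'`; `g'` is invariant as `g` and `β` are. -/
def S_SBET : Prop := ∀ {n m : ℕ} (T : Set (Cn n)) {G : Type u} [Group G]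
  (R : G → Cn n → Cn n → Prop), Et T R → ∀ (σ : Cn n → Matrix (Fin n) (Fin m) ℂ)
  (h P : Cn n → Matrix (Fin m) (Fin m) ℂ) (r : ℕ), SD T R σ h → ParS r T R σ h P →
  SD T R (fun x => σ x * P x) h ∧ SD T R (fun x => σ x * (1 - P x)) h ∧
  ∀ x ∈ T, gS σ h x = gS (fun y => σ y * P y) h x + gS (fun y => σ y * (1 - P y)) h x ∧
    (gS (fun y => σ y * P y) h x).PosSemidef ∧ (gS (fun y => σ y * (1 - P y)) h x).PosSemidef ∧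
    (∀ k l, RE h k l x * P x = 0) ∧ (∀ l, cdM l P x = GamE h l x * P x - P x * GamE h l x) ∧
    ∀ (ε : ℝ) (Q : Cn n → Matrix (Fin n) (Fin n) ℂ),
      XS ε (fun y => σ y * P y) h Q x = P x * XS ε σ h Q x * P x ∧
      ε * tS (fun y => σ y * (1 - P y)) h Q x = (Matrix.trace ((1 - P x) * XS ε σ h Q x)).re ∧
      ε * tS σ h Q x = (Matrix.trace (XS ε σ h Q x)).re

/-! ## 2. Linear algebra -/

/-- SDL. Pointwise: the form `β = f h fᴴ`, `f = f P`, and the matrix `Y = h fᴴ Q⁻¹ f` (`m × m`).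
PROOF. (1) `Q + z β = (1 + z f h fᴴ Q⁻¹) Q` and `det (1 + z f (h fᴴ Q⁻¹)) = det (1 + z (h fᴴ Q⁻¹) f)` (`Matrix.det_one_add_mul_comm`). (2) `Y h = h (fᴴ Q⁻¹ f) h ≥ 0`, `Y P = Y`, `P Y = Y` (`P h = h Pᴴ`, `Pᴴ fᴴ = fᴴ`). With
`h = S Sᴴ`: `Z := S⁻¹ Y S ≥ 0` is Hermitian, `E := S⁻¹ P S` an orthogonal projector of rank `r`, `E Z = Z E = Z`: `Z` has at most `r` nonzero eigenvalues `z_i ≥ 0`; `det (1 + t Y) = ∏ (1 + t z_i)`, which is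
`≥ 1 + t ∑ z_i`, `≤ (1 + t ∑ z_i)^r`, and for `lam ≥ 1`: `∏ (1 + lam t z_i) ≤ lam^r ∏ (1 + t z_i)`. (3) `1 + t Z ≥ t Z + (1 - E) ≥ 0` and `det (t Z + 1 - E) = t^r det (Z + 1 - E)` (see `RDP`). -/
def S_SDL : Prop := ∀ {n m : ℕ} (r : ℕ) (Q : Matrix (Fin n) (Fin n) ℂ)
  (f : Matrix (Fin n) (Fin m) ℂ) (h P : Matrix (Fin m) (Fin m) ℂ), Q.PosDef → h.PosDef →
  P * P = P → P * h = h * Pᴴ → Matrix.trace P = r → f * P = f →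
  (∀ z : ℂ, (Q + z • (f * h * fᴴ)).det = Q.det * (1 + z • (h * fᴴ * Q⁻¹ * f)).det) ∧
  (f * h * fᴴ).PosSemidef ∧ 0 ≤ (Matrix.trace (f * h * fᴴ * Q⁻¹)).re ∧
  Matrix.trace (f * h * fᴴ * Q⁻¹) = Matrix.trace (h * fᴴ * Q⁻¹ * f) ∧
  0 ≤ (h * fᴴ * Q⁻¹ * f + (1 - P)).det.re ∧ ∀ t : ℝ, 0 ≤ t →
    (1 + t * (Matrix.trace (h * fᴴ * Q⁻¹ * f)).re ≤ (1 + (t : ℂ) • (h * fᴴ * Q⁻¹ * f)).det.re ∧
      (1 + (t : ℂ) • (h * fᴴ * Q⁻¹ * f)).det.re ≤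
        (1 + t * (Matrix.trace (h * fᴴ * Q⁻¹ * f)).re) ^ r) ∧
    t ^ r * (h * fᴴ * Q⁻¹ * f + (1 - P)).det.re ≤ (1 + (t : ℂ) • (h * fᴴ * Q⁻¹ * f)).det.re ∧
    ∀ lam : ℝ, 1 ≤ lam → (Q + ((lam * t : ℝ) : ℂ) • (f * h * fᴴ)).det.re ≤
      lam ^ r * (Q + (t : ℂ) • (f * h * fᴴ)).det.re

/-- SDR. Pointwise: rigidity (as GAL).
PROOF. `Q = S Sᴴ`, `C := S⁻¹ β S⁻ᴴ = (S⁻¹ f) h (S⁻¹ f)ᴴ ≥ 0` has rank `≤ r` (`f = f P`, `P` has rank `r`): eigenvalues `μ_1, …, μ_r ≥ 0` and `0` (if `r > n` pad by zeros: the expression is then `≥ r - n > 0`), the expression is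
`∑_{i ≤ r} (μ_i - 1)²`. If it vanishes then `C` is an orthogonal projector of rank `r`: `C² = C`, `tr C = r`. -/
def S_SDR : Prop := ∀ {n m : ℕ} (r : ℕ) (Q : Matrix (Fin n) (Fin n) ℂ)
  (f : Matrix (Fin n) (Fin m) ℂ) (h P : Matrix (Fin m) (Fin m) ℂ), Q.PosDef → h.PosDef →
  P * P = P → P * h = h * Pᴴ → Matrix.trace P = r → f * P = f →
  0 ≤ (Matrix.trace (f * h * fᴴ * Q⁻¹ * (f * h * fᴴ) * Q⁻¹)).re -
    2 * (Matrix.trace (f * h * fᴴ * Q⁻¹)).re + r ∧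
  ((Matrix.trace (f * h * fᴴ * Q⁻¹ * (f * h * fᴴ) * Q⁻¹)).re -
      2 * (Matrix.trace (f * h * fᴴ * Q⁻¹)).re + r = 0 →
    (f * h * fᴴ * Q⁻¹) * (f * h * fᴴ * Q⁻¹) = f * h * fᴴ * Q⁻¹ ∧
    Matrix.trace (f * h * fᴴ * Q⁻¹) = r)

/-- SDM. Pointwise: `Q ≤ a H` and a lower bound of the determinant bound `Q` from below; a trace bound is a bound of forms.
PROOF. (1) `Q = S Sᴴ`, `S⁻¹ Y S⁻ᴴ ≥ 0` has trace `tr (Y Q⁻¹)`, so it is `≤ tr (Y Q⁻¹)`. (2) `det` is monotone on positive definite matrices: `det (c H) = c^n det H`. -/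
def S_SDM : Prop := ∀ {n : ℕ} (Q H Y : Matrix (Fin n) (Fin n) ℂ), Q.PosDef → H.PosDef →
  (Y.PosSemidef → (((Matrix.trace (Y * Q⁻¹)).re : ℂ) • Q - Y).PosSemidef) ∧
  (∀ c : ℝ, 0 < c → (Q - (c : ℂ) • H).PosSemidef → c ^ n * H.det.re ≤ Q.det.re) ∧
  ∀ c : ℝ, 0 < c → ((c : ℂ) • H - Q).PosSemidef → Q.det.re ≤ c ^ n * H.det.re

/-! ## 3. Averages along the sequence -/

/-- SAV. Averages of continuous functions of `X_j` (as RAVL, with `m × m` matrices). USES: NULL0, DETI.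
PROOF. See `Helper40/RBC/RAVL.lean`. (`F x (X_j x)` need not be invariant: `avE` is the integral with the weight `κ det Q_j`.) -/
def S_SAV : Prop := ∀ {n m : ℕ} (T : Set (Cn n)) {G : Type u} [Group G]
  (R : G → Cn n → Cn n → Prop) (H : Cn n → Matrix (Fin n) (Fin n) ℂ)
  (σ : Cn n → Matrix (Fin n) (Fin m) ℂ) (h : Cn n → Matrix (Fin m) (Fin m) ℂ) (ψ : Cn n → ℝ),
  HDat T R H σ h ψ → ∀ κ, IsPUE T R κ → ∀ (r : ℕ) (X P : Cn n → Matrix (Fin m) (Fin m) ℂ)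
  (s : ℝ) (S N : ℕ → ℝ) (φ : ℕ → Cn n → ℝ) (H' : ℕ → Cn n → Matrix (Fin n) (Fin n) ℂ)
  (ε : ℕ → ℝ) (Q : ℕ → Cn n → Matrix (Fin n) (Fin n) ℂ),
  LimS r T R κ H σ h X P s S N φ H' ε Q →
  ∀ F : Cn n → Matrix (Fin m) (Fin m) ℂ → ℝ,
  ContinuousOn (fun q : Cn n × Matrix (Fin m) (Fin m) ℂ => F q.1 q.2) (T ×ˢ univ) →
  ∀ a b : ℝ, (∀ x ∈ T, a ≤ F x (X x) ∧ F x (X x) ≤ b) → ∀ η : ℝ, 0 < η → ∀ᶠ j in atTop,
    a - η ≤ avE T κ (Q j) (fun x => F x (XS (ε j) σ h (Q j) x)) ∧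
    avE T κ (Q j) (fun x => F x (XS (ε j) σ h (Q j) x)) ≤ b + η

/-- SND. `sup ε_j tr (g' Q_j⁻¹) → 0`. USES: RWT, SBET, SLG, SAV.
PROOF. `TkeS T R H (ε j) (H' j) (Q j)` from `SeqR`. For `δ > 0`: `S := ε_j t' + δ`, `t' := tS (σ (1 - P)) h (Q j)`, `log S = log ε_j + log (t' + δ/ε_j)`, so `-1 ≤ trL Q (log S)` (`SLG` for `σ (1 - P)`, `η := ε_j H'_j ≥ 0`,
`Q := Q_j`, constants do not matter). `RWT`: `S x ≤ K avE S = K (avE (ε_j t') + δ)`. `ε_j t' = tr ((1 - P) X_j)` (`SBET`) and `tr ((1 - P) X) = 0` (`XP`): `avE (ε_j t') ≤ δ` for large `j` (`SAV`). So `ε_j t' ≤ 2 K δ` for large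
`j`; take `d j := sup_T ε_j t'` (a maximum, `Et.coc`; or choose `d` from `∀ δ, ∀ᶠ j`). -/
def S_SND : Prop := ∀ {n m : ℕ}, 0 < n → ∀ (T : Set (Cn n)) {G : Type u} [Group G]
  (R : G → Cn n → Cn n → Prop) (H : Cn n → Matrix (Fin n) (Fin n) ℂ)
  (σ : Cn n → Matrix (Fin n) (Fin m) ℂ) (h : Cn n → Matrix (Fin m) (Fin m) ℂ) (ψ : Cn n → ℝ),
  HDat T R H σ h ψ → ∀ κ, IsPUE T R κ → ∀ (r : ℕ) (X P : Cn n → Matrix (Fin m) (Fin m) ℂ)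
  (s : ℝ) (S N : ℕ → ℝ) (φ : ℕ → Cn n → ℝ) (H' : ℕ → Cn n → Matrix (Fin n) (Fin n) ℂ)
  (ε : ℕ → ℝ) (Q : ℕ → Cn n → Matrix (Fin n) (Fin n) ℂ),
  LimS r T R κ H σ h X P s S N φ H' ε Q →
  ∀ d : ℝ, 0 < d → ∀ᶠ j in atTop, ∀ x ∈ T, ε j * tS (fun y => σ y * (1 - P y)) h (Q j) x ≤ d

/-! ## 4. Volume -/

/-- SRLV. The volumes along the sequence (as RLV, with any multiple of `Q` and of a closed form). USES: MOMG, RHOI, RFAM.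
PROOF. `RFAM` (2): `Q = ε H + (1 + ε N) rho H + LM w`, `w` invariant. For real `a` the field `a Q + β` is `a ((1 + ε N) rho H + ε H) + β + LM (a w)`: `MOMG`. Last item: `β = 0`, `a = 1`, `1 + ε N > 0`. -/
def S_SRLV : Prop := ∀ {n : ℕ} (T : Set (Cn n)) {G : Type u} [Group G]
  (R : G → Cn n → Cn n → Prop) (H : Cn n → Matrix (Fin n) (Fin n) ℂ), KEt T R H →
  ∀ κ, IsPUE T R κ → ∀ (ε N : ℝ) (φ : Cn n → ℝ) (H' Q : Cn n → Matrix (Fin n) (Fin n) ℂ),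
  0 < ε → Fam T R H N φ H' → TKE T R H' ε Q →
  (∀ (a : ℝ) (β : Cn n → Matrix (Fin n) (Fin n) ℂ) (w : Cn n → ℝ), CHF β T → InvH R β →
    InvF T R w →
    ∫ x in T, κ x * ((a : ℂ) • Q x + β x + LM w x).det.re =
      ∫ x in T, κ x * ((a : ℂ) • (((1 + ε * N : ℝ) : ℂ) • rho H x + (ε : ℂ) • H x) + β x).det.re ∧
    ∫ x in T, κ x * ((a : ℂ) • Q x + β x + LM w x).det.re =
      ∫ x in T, κ x * ((a : ℂ) • Q x + β x).det.re) ∧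
  ∀ t : ℝ, ∫ x in T, κ x * (Q x + (t : ℂ) • H x).det.re =
    (1 + ε * N) ^ n * VolP T κ H ((ε + t) / (1 + ε * N))

/-- SNK. The numerical dimension is at least `n - r`. USES: SRLV, SND, SAV, SBET, SDL, SDM, TRC, NULL0, RHOI, RHB, LMF.
PROOF. `c > 0` with `c H ≤ rho H + LM ψ + g` (continuity, `Et.coc`: `RHB`-type argument; the maximum of `tr (H (rho H + LM ψ + g)⁻¹)`). Fix `t > 0`. `u_j := ld Q_j - ld H - ψ` (`InvF`): `rho H + LM ψ = rho Q_j - LM u_j = Q_j - ε_j H'_j - LM u_j ≤ Q_j - LM u_j`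
(`RHOI`). `ε_j g' ≤ d Q_j` for large `j` (`SND`, `SDM` (1)). So `Q_j + t c ε_j H ≤ M_j := (1 + t ε_j + t d) Q_j + t ε_j β - LM (t ε_j u_j)`. `det (Q_j + t c ε_j H) ≤ det M_j` (`TRC` (4)), integrate: `∫ κ det M_j = ∫ κ det (b Q_j + t ε_j β)`, `b := 1 + t ε_j + t d` (`SRLV`; `β`
closed) `≤ b^n ∫ κ det (Q_j + t ε_j β) = b^n vol Q_j avE (det (1 + t P X_j P))` (`SDL` (1), `SBET`; `Q_j + (t/b) ε_j β ≤ Q_j + t ε_j β`), and `det (1 + t P X P) ≤ (1 + t s)^r` (`X = P X P`, `tr X = s`; proof as in `SDL` (2)), so `avE ≤ (1 + t s)^r + η` for large `j` (`SAV`). The left side is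
`(1 + ε_j N_j)^n V(s_j (1 + t c))`, `s_j := ε_j/(1 + ε_j N_j) → 0`, and `vol Q_j = (1 + ε_j N_j)^n V(s_j)`: the ratio `→ (1 + t c)^k`. So `(1 + t c)^k ≤ (1 + t d)^n ((1 + t s)^r + η)`; `d, η → 0`, then `t → ∞`: `k ≤ r`. (See `rnk`, Helper10/RBC/Rnk.lean.) -/
def S_SNK : Prop := ∀ {n m : ℕ}, 0 < n → ∀ (T : Set (Cn n)) {G : Type u} [Group G]
  (R : G → Cn n → Cn n → Prop) (H : Cn n → Matrix (Fin n) (Fin n) ℂ)
  (σ : Cn n → Matrix (Fin n) (Fin m) ℂ) (h : Cn n → Matrix (Fin m) (Fin m) ℂ) (ψ : Cn n → ℝ),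
  HDat T R H σ h ψ → ∀ κ, IsPUE T R κ → ∀ (k : ℕ) (p : Polynomial ℝ), 0 < p.eval 0 →
  (∀ s : ℝ, VolP T κ H s = s ^ k * p.eval s) →
  ∀ (r : ℕ) (X P : Cn n → Matrix (Fin m) (Fin m) ℂ)
  (s : ℝ) (S N : ℕ → ℝ) (φ : ℕ → Cn n → ℝ) (H' : ℕ → Cn n → Matrix (Fin n) (Fin n) ℂ)
  (ε : ℕ → ℝ) (Q : ℕ → Cn n → Matrix (Fin n) (Fin n) ℂ),
  LimS r T R κ H σ h X P s S N φ H' ε Q → k ≤ r

/-- SVP. Positivity of the volume, and `r ≤ k`. USES: SRLV, SAV, SBET, SDL, NULL0, RHOI.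
PROOF. `SDL` (3) with `t = 1/ε_j` for `f = σ P`, `Y = X_j'/ε_j`, `X_j' = P X_j P`: `ε_j^(-r) det (X_j' + 1 - P) det Q_j ≤ det (Q_j + β)` (note `t Y = ...`: `det (1 + Y) ≥ ε^(-r) det (ε Y + 1 - P)` is the case `t = 1/ε` of `SDL` (3) for the matrix `ε Y`, i.e. for `ε h` in the place of
`h`). Integrate: `∫ κ det (Q_j + β) ≥ ε_j^(-r) vol Q_j avE (det (P X_j P + 1 - P))` and the average is `≥ α/2` for large `j` (`SAV`, `nd`, `P X P = X`). `vol Q_j = (1 + ε_j N_j)^n V(s_j) ≥ c ε_j^k` (`SRLV`). The left side is `∫ κ det ((1 + ε_j N_j) rho H + ε_j H + β)` (`SRLV`), it converges to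
`∫ κ det (rho H + β)`. So `∫ κ det (rho H + β) ≥ limsup (c α/2) ε_j^(k - r)`: with `k ≤ r` it is `> 0`, and if `k < r` the right side would be unbounded. -/
def S_SVP : Prop := ∀ {n m : ℕ}, 0 < n → ∀ (T : Set (Cn n)) {G : Type u} [Group G]
  (R : G → Cn n → Cn n → Prop) (H : Cn n → Matrix (Fin n) (Fin n) ℂ)
  (σ : Cn n → Matrix (Fin n) (Fin m) ℂ) (h : Cn n → Matrix (Fin m) (Fin m) ℂ) (ψ : Cn n → ℝ),
  HDat T R H σ h ψ → ∀ κ, IsPUE T R κ → ∀ (k : ℕ) (p : Polynomial ℝ), 0 < p.eval 0 →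
  (∀ s : ℝ, VolP T κ H s = s ^ k * p.eval s) →
  ∀ (r : ℕ) (X P : Cn n → Matrix (Fin m) (Fin m) ℂ)
  (s : ℝ) (S N : ℕ → ℝ) (φ : ℕ → Cn n → ℝ) (H' : ℕ → Cn n → Matrix (Fin n) (Fin n) ℂ)
  (ε : ℕ → ℝ) (Q : ℕ → Cn n → Matrix (Fin n) (Fin n) ℂ),
  LimS r T R κ H σ h X P s S N φ H' ε Q → k ≤ r → r = k ∧
  0 < ∫ x in T, κ x * (rho H x + gS (fun y => σ y * P y) h x).det.re

/-- SHM. The volume of `rho H + t β` is homogeneous. USES: SBET, SDL, TRC, VOLP, MOMG, RHOI, RHB, DETI.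
PROOF. `β := gS (σ P) h`, `W(t) := ∫ κ det (rho H + t β)`, a polynomial in `t`. `Q_e` with `rho Q_e = Q_e - e H` (hypothesis, `e > 0`): `w_e(t) := ∫ κ det (Q_e + t β) = ∫ κ det (rho H + e H + t β)` (`MOMG`), `w_e(t) → W(t)` for `e → 0`. (1) `β ≤ C H` (`RHB`), so for `t ≥ 0`: `w_e(t) ≤
∫ κ det (Q_e + t C H) = V(e + t C)` (`VOLP` (1)); `e → 0`: `W(t) ≤ V(t C) = (t C)^r p(t C)`. (2) For `lam ≥ 1`, `t ≥ 0`: `w_e(lam t) ≤ lam^r w_e(t)` (`SDL`), so `W(lam t) ≤ lam^r W(t)`. (3) By (1) the polynomial `W` (`0 ≤ W` on `t ≥ 0`) is divisible by `t^r`: `W = t^r q(t)`; by (2) `q` is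
nonincreasing on `(0, ∞)` and `≥ 0`, so it is bounded on `[1, ∞)`, hence constant. -/
def S_SHM : Prop := ∀ {n m : ℕ} (T : Set (Cn n)) {G : Type u} [Group G]
  (R : G → Cn n → Cn n → Prop) (H : Cn n → Matrix (Fin n) (Fin n) ℂ), KEt T R H →
  (∀ ε : ℝ, 0 < ε → ∃ Q, TKE T R H ε Q) → ∀ κ, IsPUE T R κ →
  ∀ (r : ℕ) (p : Polynomial ℝ), (∀ s : ℝ, VolP T κ H s = s ^ r * p.eval s) →
  ∀ (σ : Cn n → Matrix (Fin n) (Fin m) ℂ) (h P : Cn n → Matrix (Fin m) (Fin m) ℂ),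
  SD T R σ h → ParS r T R σ h P → ∀ t : ℝ, 0 ≤ t →
  ∫ x in T, κ x * (rho H x + (t : ℂ) • gS (fun y => σ y * P y) h x).det.re =
    t ^ r * ∫ x in T, κ x * (rho H x + gS (fun y => σ y * P y) h x).det.re

/-! ## 5. Exact metrics -/

/-- HUB. The general bound: if `rho Q = Q - η` with `0 ≤ η ≤ a H` and `tr (g Q⁻¹) ≤ b` then `H ≤ C Q`, `C` depends only on the data and `a, b`. USES: WIRT, LMF, CL, CHN, SDM, RHOI, KETP, TRI, RHB, DETI, IFN, INVK.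
PROOF. `c > 0` with `c H ≤ rho H + LM ψ + g ≤ C₁ H` and `g ≥ 0`. `u := ld Q - ld H - ψ` (`InvF`), `LM u = rho Q - rho H - LM ψ = Q - η - rho H - LM ψ`. (1) At a maximum of `u` (`Et.coc`): `LM u ≤ 0`, `Q ≤ η + rho H + LM ψ ≤ (a + C₁) H`, so `det Q ≤ (a + C₁)^n det H` there: `u ≤ u₁`. (2) At a
minimum: `LM u ≥ 0`, `Q ≥ η + rho H + LM ψ ≥ c H - g ≥ c H - b Q` (`g ≤ tr (g Q⁻¹) Q`, `SDM`): `Q ≥ (c/(1 + b)) H`, so `u ≥ u₀` everywhere. (3) `y := tr (H Q⁻¹)` (`InvF`, `> 0` as `0 < n`): `CL` for the Kähler metric `H`: `trL Q y = - y + tr (η K H K) - KKt H Q + AAt H Q ≥ - y - K₀ y² + AAt`,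
where `KKt H Q ≤ K₀ y²` (`crvP H K K ≤ K₀ tr (H K)²` by compactness and invariance: `K = ∑ conj(f_a) ⊗ f_a`, `|crv f f̄ f' f̄'| ≤ K₀ |f|²_H |f'|²_H`), so `trL Q (log y) ≥ -1 - K₀ y` (as `GLG`: `AAPS`). (4) `trL Q u = n - tr ((η + rho H + LM ψ) K) ≤ n - tr ((c H - g) K) ≤ n + b - c y`. With
`A := (K₀ + 1)/c`: `trL Q (log y - A u) ≥ y - 1 - A (n + b)`; at a maximum of `log y - A u` it is `≤ 0`: `y ≤ Y₀ := 1 + A (n + b)` there, so everywhere `log y ≤ log Y₀ + A (u₁ - u₀)`. `H ≤ y Q` (`SDM`). -/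
def S_HUB : Prop := ∀ {n : ℕ}, 0 < n → ∀ (T : Set (Cn n)) {G : Type u} [Group G]
  (R : G → Cn n → Cn n → Prop) (H g : Cn n → Matrix (Fin n) (Fin n) ℂ) (ψ : Cn n → ℝ),
  KEt T R H → InvF T R ψ → (∀ x ∈ T, (g x).PosSemidef) →
  (∀ i j, ContDiffOn ℝ ∞ (fun x => g x i j) T) → InvH R g →
  (∀ x ∈ T, (rho H x + LM ψ x + g x).PosDef) → ∀ a b : ℝ, 0 ≤ a → 0 ≤ b → ∃ C : ℝ, 0 < C ∧
  ∀ Q η : Cn n → Matrix (Fin n) (Fin n) ℂ, KEt T R Q → (∀ x ∈ T, rho Q x = Q x - η x) →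
  (∀ x ∈ T, (η x).PosSemidef ∧ ((a : ℂ) • H x - η x).PosSemidef) →
  (∀ x ∈ T, (Matrix.trace (g x * (Q x)⁻¹)).re ≤ b) → ∀ x ∈ T, ((C : ℂ) • Q x - H x).PosSemidef

/-- HMON. The sharp bound (as RMON). USES: SCL, LMF, IFN, TRI, ARRB.
PROOF. `t := tS σ h Q` has a maximum at some `x` (`Et.coc`), there `(trL Q t).re ≤ 0`. `SCL` with `η = ε H`: `0 ≥ - t + ε tr (H K g K)`. With `Q = S Sᴴ`, `a := S⁻¹ g S⁻ᴴ ≥ 0`, `b := S⁻¹ H S⁻ᴴ > 0`: `(tr a)² ≤ tr (a b) tr (a b⁻¹)` for `a ≥ 0` (Cauchy–Schwarz for the Frobenius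
product of `a^{1/2} b^{1/2}` and `a^{1/2} b^{-1/2}`): `t² ≤ tr (H K g K) tr (g H⁻¹) ≤ s tr (H K g K)`. So `ε t² ≤ s t`, `ε t ≤ s` (also if `t = 0`, since `0 ≤ s`). -/
def S_HMON : Prop := ∀ {n m : ℕ} (T : Set (Cn n)) {G : Type u} [Group G]
  (R : G → Cn n → Cn n → Prop) (H : Cn n → Matrix (Fin n) (Fin n) ℂ)
  (σ : Cn n → Matrix (Fin n) (Fin m) ℂ) (h : Cn n → Matrix (Fin m) (Fin m) ℂ), KEt T R H →
  SD T R σ h → ∀ s : ℝ, SupB T (gS σ h) H s → ∀ (ε : ℝ) (Q : Cn n → Matrix (Fin n) (Fin n) ℂ),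
  0 < ε → TKE T R H ε Q → ∀ x ∈ T, ε * tS σ h Q x ≤ s

/-- HEXP. Existence of the twisted Kähler–Einstein metrics (goal `S_HEX` of `Defs.lean`). USES: `S_AYG`, HUB, HMON, RHB, RHOI, DETI, KETP.
PROOF. As GEX: (1) for large `ε` the field `ε H + rho H` is a metric, `AYG`. (2) `s` with `SupB T g H s` (compactness). For `e₀ ≤ ε' ≤ ε ≤ e₁` and `TKE T R H ε Q`: `tr (g Q⁻¹) ≤ s/e₀` (`HMON`), `HUB` with `η = ε H`, `a = e₁`, `b = s/e₀`: `H ≤ C Q`, `C` independent of `ε, Q`. So `Q - (ε - ε') H` is a metric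
if `C (ε - ε') < 1`, and `AYG` gives the metric for `ε'`. (3) Finitely many steps from `e₁` to `e₀`. -/
def S_HEXP : Prop := S_HEX.{u}

/-- HB1. Existence for `δ > 0` (as GB1). USES: `S_AYG`, KETP, RHOI.
PROOF. `Q'` with `rho Q' = Q' - δ H`; `X := Q' + β` is a `KEt` metric. `AYG` for `Q'`, `X`, `f = 0`: `Q := X + LM u`, `ld Q = u + ld Q'`; `rho Q = LM u + rho Q' = Q - X + Q' - δ H = Q - β - δ H`. -/
def S_HB1 : Prop := ∀ {n : ℕ} (T : Set (Cn n)) {G : Type u} [Group G]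
  (R : G → Cn n → Cn n → Prop) (H β : Cn n → Matrix (Fin n) (Fin n) ℂ), KEt T R H →
  (∀ ε : ℝ, 0 < ε → ∃ Q, TKE T R H ε Q) → CHF β T → InvH R β → (∀ x ∈ T, (β x).PosSemidef) →
  ∀ δ : ℝ, 0 < δ → ∃ Q, BKE T R H β δ Q

/-- HVB. Volumes of the metrics `BKE` (as GVB, RV0). USES: DETI, RHOI, MOMG, NULL0, HB1.
PROOF. (1) `Q = rho H + β + δ H + LM (ld Q - ld H)` (`RHOI`), `MOMG`. (2) `f(s) := ∫ κ det (rho H + β + s H)` is continuous, `f(0) > 0` by hypothesis, `f(s) = vol Q > 0` for `s > 0` (`HB1`). See `rv0`, Helper15/RBC/RV0.lean. -/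
def S_HVB : Prop := ∀ {n : ℕ} (T : Set (Cn n)) {G : Type u} [Group G]
  (R : G → Cn n → Cn n → Prop) (H β : Cn n → Matrix (Fin n) (Fin n) ℂ), KEt T R H →
  CHF β T → InvH R β → ∀ κ, IsPUE T R κ →
  (∀ (δ : ℝ) (Q : Cn n → Matrix (Fin n) (Fin n) ℂ), BKE T R H β δ Q → ∀ t : ℝ,
    ∫ x in T, κ x * (Q x + (t : ℂ) • H x).det.re =
      ∫ x in T, κ x * (rho H x + β x + ((δ + t : ℝ) : ℂ) • H x).det.re ∧
    ∫ x in T, κ x * (Q x + (t : ℂ) • β x).det.re =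
      ∫ x in T, κ x * (rho H x + ((1 + t : ℝ) : ℂ) • β x + (δ : ℂ) • H x).det.re) ∧
  ((∀ δ : ℝ, 0 < δ → ∃ Q, BKE T R H β δ Q) → 0 < ∫ x in T, κ x * (rho H x + β x).det.re →
    ∃ V0 V1 : ℝ, 0 < V0 ∧ ∀ s : ℝ, 0 ≤ s → s ≤ 2 →
      V0 ≤ ∫ x in T, κ x * (rho H x + β x + (s : ℂ) • H x).det.re ∧
      ∫ x in T, κ x * (rho H x + β x + (s : ℂ) • H x).det.re ≤ V1)

/-- HB3. Uniform bounds and a metric `BKE` with `Q - δ H > 0` (as GB3). USES: SBG, DENS (Helper95), SLG, SBET, HUB, HB1, HVB, TRC, RHB, RHOI, KETP, SDM.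
PROOF. `β := gS (σ P) h ≤ g`. Let `0 < δ ≤ 1` and `BKE T R H β δ Q`. (1) `g ≤ C_g H` (`RHB`): `∫ κ det Q tS σ h Q ≤ C_g ∫ κ det Q tr (H K) ≤ C_g ∫ κ det (Q + H) ≤ C_g V1` (`TRC` with `t = 1`, `HVB`), `vol Q ≥ V0`. (2) `φ := ld Q - ld H`: `LM φ = rho Q - rho H = Q - β - δ H - rho H`; as in GB3 there is `a`,
independent of `δ, Q`, with `Q - LM φ ≤ a H` and `a H + LM φ ≥ 0`: `DENS` gives `DensLe T κ H K' Q`. (3) `SBG` for `S := tS σ h Q + 1` and `SLG` (`η := β + δ H ≥ 0`, `δ = 1`): `S vol Q ≤ C' ∫ κ det Q S ≤ C' (C_g V1 + vol Q)`; so `tS σ h Q ≤ b`, `b` independent of `δ, Q`. (4) `HUB` with `η = β + δ H ≤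
(C_g + 1) H`: `H ≤ C Q`. (5) `δ := min 1 (1/(2 C))`, `Q` from `HB1`: `Q - δ H ≥ (1/2) Q > 0`. -/
def S_HB3 : Prop := ∀ {n m : ℕ}, 0 < n → ∀ (T : Set (Cn n)) {G : Type u} [Group G]
  (R : G → Cn n → Cn n → Prop) (H : Cn n → Matrix (Fin n) (Fin n) ℂ)
  (σ : Cn n → Matrix (Fin n) (Fin m) ℂ) (h P : Cn n → Matrix (Fin m) (Fin m) ℂ) (ψ : Cn n → ℝ)
  (r : ℕ), HDat T R H σ h ψ → ParS r T R σ h P → (∀ ε : ℝ, 0 < ε → ∃ Q, TKE T R H ε Q) →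
  (∀ κ, IsPUE T R κ → 0 < ∫ x in T, κ x * (rho H x + gS (fun y => σ y * P y) h x).det.re) →
  ∃ (δ : ℝ) (Q : Cn n → Matrix (Fin n) (Fin n) ℂ), 0 < δ ∧
    BKE T R H (gS (fun y => σ y * P y) h) δ Q ∧ ∀ x ∈ T, (Q x - (δ : ℂ) • H x).PosDef

/-- HB4. Existence for `δ = 0` (as GB4). USES: `S_AYG`, KETP, RHOI.
PROOF. `X := Q - δ H` is a `KEt` metric; `AYG` for `Q`, `X`, `f = 0`. -/
def S_HB4 : Prop := ∀ {n : ℕ} (T : Set (Cn n)) {G : Type u} [Group G]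
  (R : G → Cn n → Cn n → Prop) (H β : Cn n → Matrix (Fin n) (Fin n) ℂ), KEt T R H →
  ∀ (δ : ℝ) (Q : Cn n → Matrix (Fin n) (Fin n) ℂ), 0 < δ → BKE T R H β δ Q →
  (∀ x ∈ T, (Q x - (δ : ℂ) • H x).PosDef) → ∃ Q₀, BKE T R H β 0 Q₀

/-! ## 6. Rigidity and output -/

/-- HB5. The form `β Q⁻¹` is a projector of rank `r` and `σ P` is parallel. USES: PUE, TRI, NULL0, TRC, SCL, SBET, SDR, HVB, IFN, RHOI, KETP.
PROOF. `f := σ P`, `β = f h fᴴ`, `s := tS f h Q = tr (β K)`, `0 ≤ s ≤ B` on `tsupport κ`. (1) For `0 < t ≤ 1/(B + 1)`: `∫ κ det (Q + t β) = ∫ κ det (rho H + (1 + t) β) = (1 + t)^r vol Q` (`HVB` with `δ = 0`, hypothesis), and it is between `∫ κ det Q (1 + t s)` and `∫ κ det Q (1 + t s + t² s²)`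
(`TRC`); so `∫ κ det Q s = r vol Q`. (2) `SCL` for `f` and `η = β`: `trL Q s = - s + tr (β K β K) + AAs + NKs`, `NKs = 0` is not needed, only `AAs, NKs ≥ 0`. (3) `q := tr (β K β K) - 2 s + r ≥ 0` (`SDR`), `q + AAs + NKs = trL Q s - s + r` is smooth and invariant with `∫ κ det Q (..) = 0`
(`TRI` (2), (1)): `NULL0`: `q = AAs = NKs = 0`. (4) `AAs = ∑ a, tr ((S Z_a y)(S Z_a y)ᴴ)` (see `SCL` (5)), so `S Z_a y = 0`, `Z_a = 0`, `τ_k = 0`. (5) `SDR`. -/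
def S_HB5 : Prop := ∀ {n m : ℕ} (T : Set (Cn n)) {G : Type u} [Group G]
  (R : G → Cn n → Cn n → Prop) (H : Cn n → Matrix (Fin n) (Fin n) ℂ)
  (σ : Cn n → Matrix (Fin n) (Fin m) ℂ) (h P : Cn n → Matrix (Fin m) (Fin m) ℂ)
  (r : ℕ), KEt T R H → SD T R σ h → ParS r T R σ h P →
  (∀ κ, IsPUE T R κ → ∀ t : ℝ, 0 ≤ t →
    ∫ x in T, κ x * (rho H x + (t : ℂ) • gS (fun y => σ y * P y) h x).det.re =
      t ^ r * ∫ x in T, κ x * (rho H x + gS (fun y => σ y * P y) h x).det.re) →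
  ∀ Q : Cn n → Matrix (Fin n) (Fin n) ℂ, BKE T R H (gS (fun y => σ y * P y) h) 0 Q → ∀ x ∈ T,
  (gS (fun y => σ y * P y) h x * (Q x)⁻¹) * (gS (fun y => σ y * P y) h x * (Q x)⁻¹) =
    gS (fun y => σ y * P y) h x * (Q x)⁻¹ ∧
  Matrix.trace (gS (fun y => σ y * P y) h x * (Q x)⁻¹) = r ∧
  ∀ k, tauS (fun y => σ y * P y) h Q k x = 0

/-- HNUL. The curvature of `Q` vanishes through the projector. USES: RCAL, ECAL, SBET, MCAL, CSY.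
PROOF. `f := σ P`, `0 = τ_k = cdR k f + f Γ_k - Γ'_k f`. Apply `cdbR l`: `cdbR l (cdR k f) = 0` (holomorphic), `cdbR l (f Γ_k) = f RE k l = σ P RE k l = 0` (`flat`), `cdbR l (Γ'_k f) = (cdbM l Γ'_k) f`. So `(cdbM l Γ'_k) f = 0`, `(cdbM l Γ'_k) β = 0`, and `crv Q x i j k l = - ((cdbM l Γ'_k) Q) i j` (`CSY`). `PP := β Q⁻¹`,
`PP Q = β = βᴴ = Q PPᴴ`: `∑ j, crv Q i j k l conj(PP a j) = - ((cdbM l Γ'_k) Q PPᴴ) i a = - ((cdbM l Γ'_k) β) i a = 0`. Conjugate symmetry (`CSY`: `conj (crv i j k l) = crv j i l k`) gives the first index. -/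
def S_HNUL : Prop := ∀ {n m : ℕ} (T : Set (Cn n)) {G : Type u} [Group G]
  (R : G → Cn n → Cn n → Prop) (σ : Cn n → Matrix (Fin n) (Fin m) ℂ)
  (h P : Cn n → Matrix (Fin m) (Fin m) ℂ) (r : ℕ), SD T R σ h → ParS r T R σ h P →
  ∀ Q : Cn n → Matrix (Fin n) (Fin n) ℂ, KEt T R Q →
  (∀ x ∈ T, ∀ k, tauS (fun y => σ y * P y) h Q k x = 0) → ∀ x ∈ T, ∀ i j l q,
  ∑ p, (gS (fun y => σ y * P y) h x * (Q x)⁻¹) i p * crv Q x p j l q = 0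

/-- HOUT. The output (helper45's form). -/
def S_HOUT : Prop := ∀ {n m : ℕ}, 0 < n → ∀ (T : Set (Cn n)) {G : Type u} [Group G]
  (R : G → Cn n → Cn n → Prop) (H : Cn n → Matrix (Fin n) (Fin n) ℂ)
  (σ : Cn n → Matrix (Fin n) (Fin m) ℂ) (h : Cn n → Matrix (Fin m) (Fin m) ℂ) (ψ : Cn n → ℝ),
  HDat T R H σ h ψ → ∃ (k : ℕ) (Q PP : Cn n → Matrix (Fin n) (Fin n) ℂ), k ≤ n ∧ KEt T R Q ∧
  ∀ x ∈ T, rho Q x = Q x - PP x * Q x ∧ PP x * PP x = PP x ∧ PP x * Q x = Q x * (PP x)ᴴ ∧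
    Matrix.trace (PP x) = k ∧ ∀ i j l q, ∑ p, PP x i p * crv Q x p j l q = 0

end Pool.Agent.Helper82.HB
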