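import Pool.Agent.Helper82.HB.Cal
import Pool.Agent.Helper62.HS.DBB
import Pool.Agent.Helper16.HS.AAPS
import Pool.Agent.Helper87.HS.CLG

/-! # HB: the Chern–Lu identity along `σ`, goals SCL and SLG -/

open Complex Metric Set Filter Topology MeasureTheory
open scoped ContDiff ComplexConjugate ComplexOrder Manifold Matrix

namespace Pool.Agent.Helper82.HB

open Pool.Agent.Helper95.Lin Pool.Agent.Helper16.Abund Pool.Agent.Helper92.Orb
  Pool.Agent.Helper10.SP Pool.Agent.Helper95.RK Pool.Agent.Helper57.HS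
  Pool.Agent.Helper15.HS
open Pool.Agent.Helper45.HS (SmM cd_congr' posDef_det cd_trace cdb_trace)
open Pool.Agent.Helper62.HS (frq frq_nonneg frq_eq)
open Pool.Agent.Helper16.HS (sum_split)

universe u

/-! ## Linear algebra -/

theorem frq_cs {p q : ℕ} (V U : Matrix (Fin p) (Fin q) ℂ) :
    ‖Matrix.trace (V * Uᴴ)‖ ^ 2 ≤ frq U * frq V := by
  have h0 : Matrix.trace (V * Uᴴ) = ∑ i, ∑ a, V i a * conj (U i a) := rfl
  have h1 : ‖Matrix.trace (V * Uᴴ)‖ ≤ ∑ z : Fin p × Fin q, ‖V z.1 z.2‖ * ‖U z.1 z.2‖ := by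
    rw [h0, ← Fintype.sum_prod_type' (fun i a => V i a * conj (U i a))]
    refine (norm_sum_le _ _).trans (le_of_eq ?_)
    refine Finset.sum_congr rfl fun z _ => ?_
    rw [norm_mul, RCLike.norm_conj]
  have h2 : frq V = ∑ z : Fin p × Fin q, ‖V z.1 z.2‖ ^ 2 := by
    unfold frq
    rw [← Fintype.sum_prod_type' (fun i a => ‖V i a‖ ^ 2)]
  have h3 : frq U = ∑ z : Fin p × Fin q, ‖U z.1 z.2‖ ^ 2 := by
    unfold frq
    rw [← Fintype.sum_prod_type' (fun i a => ‖U i a‖ ^ 2)]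
  rw [h2, h3, mul_comm]
  calc ‖Matrix.trace (V * Uᴴ)‖ ^ 2 ≤ (∑ z : Fin p × Fin q, ‖V z.1 z.2‖ * ‖U z.1 z.2‖) ^ 2 :=
        pow_le_pow_left₀ (norm_nonneg _) h1 2
    _ ≤ _ := Finset.sum_mul_sq_le_sq_mul_sq _ _ _

/-- The gradient term: a sum of squares, and the Cauchy–Schwarz inequality. -/
theorem aaps_rect {n m : ℕ} {K : Matrix (Fin n) (Fin n) ℂ} {h : Matrix (Fin m) (Fin m) ℂ}
    (hK : K.PosSemidef) (hh : h.PosSemidef) (A : Fin n → Matrix (Fin n) (Fin m) ℂ)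
    (σ : Matrix (Fin n) (Fin m) ℂ) :
    0 ≤ (∑ k, ∑ l, K l k * Matrix.trace (A k * h * (A l)ᴴ * K)).re ∧
    0 ≤ (Matrix.trace (σ * h * σᴴ * K)).re ∧
    (Matrix.trace (σ * h * σᴴ * K)).im = 0 ∧
    (∑ k, ∑ l, K l k * (Matrix.trace (A k * h * σᴴ * K) *
      conj (Matrix.trace (A l * h * σᴴ * K)))).re ≤
      (Matrix.trace (σ * h * σᴴ * K)).re *
        (∑ k, ∑ l, K l k * Matrix.trace (A k * h * (A l)ᴴ * K)).re := by
  obtain ⟨S, hS⟩ : ∃ S : Matrix (Fin n) (Fin n) ℂ, K = Sᴴ * S := by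
    open scoped MatrixOrder in
    exact CStarAlgebra.nonneg_iff_eq_star_mul_self.mp hK.nonneg
  obtain ⟨B, hB⟩ : ∃ B : Matrix (Fin m) (Fin m) ℂ, h = Bᴴ * B := by
    open scoped MatrixOrder in
    exact CStarAlgebra.nonneg_iff_eq_star_mul_self.mp hh.nonneg
  set Z : Fin n → Matrix (Fin n) (Fin m) ℂ := fun a => ∑ k, S a k • A k with hZ
  set V : Fin n → Matrix (Fin n) (Fin m) ℂ := fun a => S * Z a * Bᴴ with hV
  set U : Matrix (Fin n) (Fin m) ℂ := S * σ * Bᴴ with hU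
  have e1 : ∑ k, ∑ l, K l k * Matrix.trace (A k * h * (A l)ᴴ * K) =
      ∑ a, Matrix.trace (V a * (V a)ᴴ) := by
    have h1 : ∀ a, Matrix.trace (V a * (V a)ᴴ) = Matrix.trace (Z a * h * (Z a)ᴴ * K) := by
      intro a
      have : V a * (V a)ᴴ = S * (Z a * h * (Z a)ᴴ * Sᴴ) := by
        simp only [hV, hB, Matrix.conjTranspose_mul, Matrix.conjTranspose_conjTranspose,
          Matrix.mul_assoc]
      rw [this, Matrix.trace_mul_comm, hS]
      simp only [Matrix.mul_assoc]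
    have h2 : ∀ a, Matrix.trace (Z a * h * (Z a)ᴴ * K) =
        ∑ k, ∑ l, S a k * (conj (S a l) * Matrix.trace (A k * h * (A l)ᴴ * K)) := by
      intro a
      simp only [hZ, Matrix.conjTranspose_sum, Matrix.conjTranspose_smul, Matrix.sum_mul,
        Matrix.smul_mul, Matrix.mul_smul, Matrix.trace_sum, Matrix.trace_smul,
        smul_eq_mul, Finset.mul_sum, Matrix.mul_sum]
      rw [Finset.sum_comm]
      refine Finset.sum_congr rfl fun k _ => Finset.sum_congr rfl fun l _ => ?_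
      change conj (S a l) * (S a k * _) = _
      ring
    simp only [h1, h2]
    conv_lhs => rw [hS]
    rw [sum_split]
    simp only [hS]
  have e2 : ∑ a, Matrix.trace (V a * (V a)ᴴ) = ((∑ a, frq (V a) : ℝ) : ℂ) := by
    rw [Complex.ofReal_sum]
    exact Finset.sum_congr rfl fun a _ => (frq_eq _).symm
  have e3 : Matrix.trace (σ * h * σᴴ * K) = ((frq U : ℝ) : ℂ) := by
    rw [frq_eq]
    have : U * Uᴴ = S * (σ * h * σᴴ * Sᴴ) := by
      simp only [hU, hB, Matrix.conjTranspose_mul, Matrix.conjTranspose_conjTranspose,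
        Matrix.mul_assoc]
    rw [this, Matrix.trace_mul_comm S, hS]
    simp only [Matrix.mul_assoc]
  have e4 : ∑ k, ∑ l, K l k * (Matrix.trace (A k * h * σᴴ * K) *
      conj (Matrix.trace (A l * h * σᴴ * K))) =
      ((∑ a, ‖Matrix.trace (V a * Uᴴ)‖ ^ 2 : ℝ) : ℂ) := by
    have h1 : ∀ a, Matrix.trace (V a * Uᴴ) = ∑ k, S a k * Matrix.trace (A k * h * σᴴ * K) := by
      intro a
      have : V a * Uᴴ = S * (Z a * h * σᴴ * Sᴴ) := by
        simp only [hV, hU, hB, Matrix.conjTranspose_mul, Matrix.conjTranspose_conjTranspose,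
          Matrix.mul_assoc]
      rw [this, Matrix.trace_mul_comm]
      have : Z a * h * σᴴ * Sᴴ * S = Z a * h * σᴴ * K := by
        rw [hS]
        simp only [Matrix.mul_assoc]
      rw [this]
      simp only [hZ, Matrix.sum_mul, Matrix.smul_mul, Matrix.trace_sum, Matrix.trace_smul,
        smul_eq_mul]
    have h2 : ∑ k, ∑ l, K l k * (Matrix.trace (A k * h * σᴴ * K) *
        conj (Matrix.trace (A l * h * σᴴ * K))) = ∑ a, ∑ k, ∑ l, S a k * (conj (S a l) *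
          (Matrix.trace (A k * h * σᴴ * K) * conj (Matrix.trace (A l * h * σᴴ * K)))) := by
      have h3 := sum_split S (fun k l => Matrix.trace (A k * h * σᴴ * K) *
        conj (Matrix.trace (A l * h * σᴴ * K)))
      rw [← h3, ← hS]
    rw [h2, Complex.ofReal_sum]
    refine Finset.sum_congr rfl fun a _ => ?_
    rw [Complex.ofReal_pow, ← Complex.mul_conj', h1, map_sum, Finset.sum_mul_sum]
    refine Finset.sum_congr rfl fun k _ => Finset.sum_congr rfl fun l _ => ?_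
    rw [map_mul]
    ring
  refine ⟨?_, ?_, ?_, ?_⟩
  · rw [e1, e2, Complex.ofReal_re]
    exact Finset.sum_nonneg fun a _ => frq_nonneg _
  · rw [e3, Complex.ofReal_re]
    exact frq_nonneg _
  · rw [e3, Complex.ofReal_im]
  · rw [e4, e1, e2, e3, Complex.ofReal_re, Complex.ofReal_re, Complex.ofReal_re, Finset.mul_sum]
    exact Finset.sum_le_sum fun a _ => frq_cs _ _

/-- The curvature term is nonnegative. -/
theorem nk_nonneg {n : ℕ} {K : Matrix (Fin n) (Fin n) ℂ} (hK : K.PosSemidef)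
    (F : Fin n → Fin n → Matrix (Fin n) (Fin n) ℂ)
    (hF : ∀ u w : Cn n, 0 ≤ (∑ k, ∑ l, u k * conj (u l) * hermi (F k l) w w).re) :
    0 ≤ (∑ k, ∑ l, K l k * Matrix.trace (F k l * K)).re := by
  obtain ⟨S, hS⟩ : ∃ S : Matrix (Fin n) (Fin n) ℂ, K = Sᴴ * S := by
    open scoped MatrixOrder in
    exact CStarAlgebra.nonneg_iff_eq_star_mul_self.mp hK.nonneg
  have h1 : ∀ k l, Matrix.trace (F k l * K) = ∑ b, hermi (F k l) (S b) (S b) := by
    intro k l
    have h2 : Matrix.trace (F k l * K) = Matrix.trace (S * F k l * Sᴴ) := by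
      rw [hS, ← Matrix.mul_assoc, Matrix.trace_mul_comm, ← Matrix.mul_assoc]
    rw [h2, Matrix.trace]
    refine Finset.sum_congr rfl fun b _ => ?_
    rw [Matrix.diag_apply, Matrix.mul_apply]
    unfold hermi
    rw [Finset.sum_comm]
    refine Finset.sum_congr rfl fun j _ => ?_
    rw [Matrix.mul_apply, Finset.sum_mul]
    refine Finset.sum_congr rfl fun i _ => ?_
    rw [Matrix.conjTranspose_apply]
    change S b i * F k l i j * conj (S b j) = F k l i j * S b i * conj (S b j)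
    ring
  have h2 : ∑ k, ∑ l, K l k * Matrix.trace (F k l * K) =
      ∑ b, ∑ a, ∑ k, ∑ l, S a k * conj (S a l) * hermi (F k l) (S b) (S b) := by
    have h3 : ∀ b, ∑ k, ∑ l, K l k * hermi (F k l) (S b) (S b) =
        ∑ a, ∑ k, ∑ l, S a k * conj (S a l) * hermi (F k l) (S b) (S b) := by
      intro b
      have h4 := sum_split S (fun k l => hermi (F k l) (S b) (S b))
      rw [hS, h4]
      refine Finset.sum_congr rfl fun a _ => Finset.sum_congr rfl fun k _ =>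
        Finset.sum_congr rfl fun l _ => ?_
      ring
    calc ∑ k, ∑ l, K l k * Matrix.trace (F k l * K)
        = ∑ k, ∑ l, ∑ b, K l k * hermi (F k l) (S b) (S b) := by
          refine Finset.sum_congr rfl fun k _ => Finset.sum_congr rfl fun l _ => ?_
          rw [h1, Finset.mul_sum]
      _ = ∑ k, ∑ b, ∑ l, K l k * hermi (F k l) (S b) (S b) :=
          Finset.sum_congr rfl fun k _ => Finset.sum_comm
      _ = ∑ b, ∑ k, ∑ l, K l k * hermi (F k l) (S b) (S b) := Finset.sum_comm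
      _ = _ := Finset.sum_congr rfl fun b _ => h3 b
  rw [h2, Complex.re_sum]
  refine Finset.sum_nonneg fun b _ => ?_
  rw [Complex.re_sum]
  exact Finset.sum_nonneg fun a _ => hF (S a) (S b)

/-! ## The identity -/

section ident

variable {n m : ℕ} {T : Set (Cn n)} {G : Type u} [Group G] {R : G → Cn n → Cn n → Prop}
  {σ : Cn n → Matrix (Fin n) (Fin m) ℂ} {h : Cn n → Matrix (Fin m) (Fin m) ℂ}
  {Q η : Cn n → Matrix (Fin n) (Fin n) ℂ} {x : Cn n}

theorem K_smooth (hQ : KEt T R Q) : SmR (fun y => (Q y)⁻¹) T :=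
  SmM.inv (X := Q) hQ.smooth fun y hy => posDef_det (hQ.posDef y hy)

theorem cdbR_K (hQ : KEt T R Q) (hx : x ∈ T) (l : Fin n) :
    cdbR l (fun y => (Q y)⁻¹) x = - ((Gam Q l x)ᴴ * (Q x)⁻¹) := by
  have hT := hQ.et.isOpen
  have h1 := Pool.Agent.Helper45.HS.cdbM_inv hT hx (X := Q) hQ.smooth
    (fun y hy => posDef_det (hQ.posDef y hy)) l
  have h2 : cdbM l Q x = Q x * (Gam Q l x)ᴴ := cdbM_E hT hQ.smooth hQ.posDef hx l
  have hu : IsUnit (Q x).det := isUnit_iff_ne_zero.2 (posDef_det (hQ.posDef x hx))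
  show cdbM l (fun y => (Q y)⁻¹) x = _
  rw [h1, h2, ← Matrix.mul_assoc (Q x)⁻¹, Matrix.nonsing_inv_mul _ hu, Matrix.one_mul]

theorem cdR_K (hQ : KEt T R Q) (hx : x ∈ T) (l : Fin n) :
    cdR l (fun y => (Q y)⁻¹) x = - ((Q x)⁻¹ * Gam Q l x) := by
  have hT := hQ.et.isOpen
  have h1 := Pool.Agent.Helper45.HS.cdM_inv hT hx (X := Q) hQ.smooth
    (fun y hy => posDef_det (hQ.posDef y hy)) l
  show cdM l (fun y => (Q y)⁻¹) x = _
  rw [h1]
  simp only [Gam, Matrix.mul_assoc]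

/-- Smoothness of the pieces. -/
theorem sm_sigma (hT : IsOpen T) (hS : SD T R σ h) : SmR σ T := SmR.of_holo hT hS.holo

theorem sm_gS (hT : IsOpen T) (hS : SD T R σ h) : SmR (gS σ h) T :=
  SmR.mul (SmR.mul (sm_sigma hT hS) (Y := h) hS.smooth) (sm_sigma hT hS).conjTranspose

theorem sm_B (hT : IsOpen T) (hS : SD T R σ h) (hQ : KEt T R Q) :
    SmR (fun y => h y * (σ y)ᴴ * (Q y)⁻¹) T :=
  SmR.mul (SmR.mul (X := h) hS.smooth (sm_sigma hT hS).conjTranspose) (K_smooth hQ)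

theorem sm_GamQ (hQ : KEt T R Q) (k : Fin n) : SmR (Gam Q k) T :=
  gamE_smooth hQ.et.isOpen hQ.smooth hQ.posDef k

theorem sm_tau (hT : IsOpen T) (hS : SD T R σ h) (hQ : KEt T R Q) (k : Fin n) :
    SmR (tauS σ h Q k) T :=
  SmR.sub (SmR.add ((sm_sigma hT hS).cdR hT k)
    (SmR.mul (sm_sigma hT hS) (gamE_smooth hT hS.smooth hS.posDef k)))
    (SmR.mul (sm_GamQ hQ k) (sm_sigma hT hS))

/-- `cdb l (h σᴴ K) = h τ_lᴴ K`. -/
theorem cdbR_B (hS : SD T R σ h) (hQ : KEt T R Q) (hx : x ∈ T) (l : Fin n) :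
    cdbR l (fun y => h y * (σ y)ᴴ * (Q y)⁻¹) x = h x * (tauS σ h Q l x)ᴴ * (Q x)⁻¹ := by
  have hT := hQ.et.isOpen
  have hs := sm_sigma hT hS
  rw [cdbR_mul hT hx (SmR.mul (X := h) hS.smooth hs.conjTranspose) (K_smooth hQ) l,
    cdbR_mul hT hx (X := h) hS.smooth hs.conjTranspose l, cdbR_conjTranspose hT hx hs l,
    cdbR_K hQ hx l]
  have h1 : cdbR l h x = h x * (GamE h l x)ᴴ := cdbM_E hT hS.smooth hS.posDef hx l
  rw [h1]
  unfold tauS
  simp only [Matrix.conjTranspose_sub, Matrix.conjTranspose_add, Matrix.conjTranspose_mul,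
    Matrix.mul_sub, Matrix.mul_add, Matrix.sub_mul, Matrix.add_mul, Matrix.mul_neg,
    Matrix.mul_assoc]
  abel

/-- `cd k tr (g K) = tr (τ_k h σᴴ K)`. -/
theorem cd_t (hS : SD T R σ h) (hQ : KEt T R Q) (hx : x ∈ T) (k : Fin n) :
    cd k (fun y => Matrix.trace (gS σ h y * (Q y)⁻¹)) x =
      Matrix.trace (tauS σ h Q k x * (h x * (σ x)ᴴ * (Q x)⁻¹)) := by
  have hT := hQ.et.isOpen
  have hs := sm_sigma hT hS
  have hsh : SmR (fun y => σ y * h y) T := SmR.mul hs (Y := h) hS.smooth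
  have hgK : SmM (fun y => gS σ h y * (Q y)⁻¹) T := SmR.mul (sm_gS hT hS) (K_smooth hQ)
  rw [cd_trace hT hx hgK k]
  have h0 : cdM k (fun y => gS σ h y * (Q y)⁻¹) x = cdR k (gS σ h) x * (Q x)⁻¹ +
      gS σ h x * cdR k (fun y => (Q y)⁻¹) x :=
    cdR_mul hT hx (sm_gS hT hS) (K_smooth hQ) k
  have h1 : cdR k (gS σ h) x = (cdR k σ x * h x + σ x * (GamE h k x * h x)) * (σ x)ᴴ := by
    have h2 : cdR k (gS σ h) x = cdR k (fun y => σ y * h y) x * (σ x)ᴴ +
        σ x * h x * cdR k (fun y => (σ y)ᴴ) x := cdR_mul hT hx hsh hs.conjTranspose k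
    have h3 : cdR k h x = GamE h k x * h x := (gamE_mul (hS.posDef x hx) k).symm
    rw [h2, cdR_mul hT hx hs (Y := h) hS.smooth k, cdR_conjTranspose hT hx hs k,
      cdbR_holo hT hx hS.holo k, h3]
    simp
  rw [h0, h1, cdR_K hQ hx k, Matrix.trace_add]
  have h4 : Matrix.trace (gS σ h x * -((Q x)⁻¹ * Gam Q k x)) =
      - Matrix.trace (Gam Q k x * (gS σ h x * (Q x)⁻¹)) := by
    rw [Matrix.mul_neg, Matrix.trace_neg, ← Matrix.mul_assoc, Matrix.trace_mul_comm]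
  rw [h4]
  unfold tauS gS
  simp only [Matrix.sub_mul, Matrix.add_mul, Matrix.trace_sub, Matrix.trace_add,
    Matrix.mul_assoc]
  ring

/-- `cdb l τ_k = σ RE k l - (cdb l Γ'_k) σ`. -/
theorem cdbR_tau (hS : SD T R σ h) (hQ : KEt T R Q) (hx : x ∈ T) (k l : Fin n) :
    cdbR l (tauS σ h Q k) x = σ x * RE h k l x - cdbM l (Gam Q k) x * σ x := by
  have hT := hQ.et.isOpen
  have hs := sm_sigma hT hS
  have hG := gamE_smooth hT hS.smooth hS.posDef k
  have hG' := sm_GamQ hQ k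
  have h1 : cdbR l (tauS σ h Q k) x =
      cdbR l (fun y => cdR k σ y + σ y * GamE h k y) x - cdbR l (fun y => Gam Q k y * σ y) x :=
    cdbR_sub hT hx (SmR.add (hs.cdR hT k) (SmR.mul hs (Y := GamE h k) hG)) (SmR.mul hG' hs) l
  rw [h1, cdbR_add hT hx (hs.cdR hT k) (SmR.mul hs (Y := GamE h k) hG) l,
    cdbR_cdR_holo hT hx hS.holo k l, cdbR_mul hT hx hs (Y := GamE h k) hG l,
    cdbR_mul hT hx hG' hs l, cdbR_holo hT hx hS.holo l]
  simp only [Matrix.zero_mul, Matrix.mul_zero, zero_add, add_zero]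
  rfl

theorem gS_herm (hp : (h x).PosDef) : (gS σ h x).IsHermitian := by
  unfold gS
  exact Matrix.isHermitian_mul_mul_conjTranspose (σ x) hp.isHermitian

theorem gS_psd (hp : (h x).PosDef) : (gS σ h x).PosSemidef :=
  hp.posSemidef.mul_mul_conjTranspose_same (σ x)

theorem tS_real (hS : SD T R σ h) (hQ : KEt T R Q) (hx : x ∈ T) :
    ((tS σ h Q x : ℝ) : ℂ) = Matrix.trace (gS σ h x * (Q x)⁻¹) := by
  have h1 := (aaps_rect (hQ.posDef x hx).inv.posSemidef (hS.posDef x hx).posSemidef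
    (fun _ => 0) (σ x)).2.2.1
  refine Complex.ext ?_ ?_
  · rfl
  · rw [Complex.ofReal_im]
    exact h1.symm

/-- The Levi matrix of `tr (g K)`. -/
theorem LM_t (hS : SD T R σ h) (hQ : KEt T R Q) (hx : x ∈ T) (k l : Fin n) :
    LM (tS σ h Q) x k l =
      Matrix.trace (σ x * RE h k l x * (h x * (σ x)ᴴ * (Q x)⁻¹)) -
      Matrix.trace (cdbM l (Gam Q k) x * (σ x * (h x * (σ x)ᴴ * (Q x)⁻¹))) +
      Matrix.trace (tauS σ h Q k x * (h x * (tauS σ h Q l x)ᴴ * (Q x)⁻¹)) := by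
  have hT := hQ.et.isOpen
  have hgK : SmM (fun y => gS σ h y * (Q y)⁻¹) T := SmR.mul (sm_gS hT hS) (K_smooth hQ)
  set F : Cn n → ℂ := fun y => Matrix.trace (gS σ h y * (Q y)⁻¹) with hF
  have hFs : ContDiffOn ℝ ∞ F T := hgK.trace
  have h0 : ∀ y ∈ T, ((tS σ h Q y : ℝ) : ℂ) = F y := fun y hy => tS_real hS hQ hy
  have h1 : LM (tS σ h Q) x k l = cd k (cdb l F) x := by
    simp only [LM, Matrix.of_apply]
    exact (cd_congr' hT hx (fun y hy => (cd_congr' hT hy h0 l).2) k).1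
  have hτB : SmM (fun y => tauS σ h Q k y * (h y * (σ y)ᴴ * (Q y)⁻¹)) T :=
    SmR.mul (sm_tau hT hS hQ k) (sm_B hT hS hQ)
  rw [h1, ((Wirt.wirt T hT F F hFs hFs).2.2.2.2.1 k l x hx).2.2,
    (cd_congr' hT hx (fun y hy => cd_t hS hQ hy k) l).2, cdb_trace hT hx hτB l]
  have h2 : cdbM l (fun y => tauS σ h Q k y * (h y * (σ y)ᴴ * (Q y)⁻¹)) x =
      cdbR l (tauS σ h Q k) x * (h x * (σ x)ᴴ * (Q x)⁻¹) +
      tauS σ h Q k x * cdbR l (fun y => h y * (σ y)ᴴ * (Q y)⁻¹) x :=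
    cdbR_mul hT hx (sm_tau hT hS hQ k) (sm_B hT hS hQ) l
  rw [h2, cdbR_tau hS hQ hx k l, cdbR_B hS hQ hx l, Matrix.trace_add, Matrix.sub_mul,
    Matrix.trace_sub, Matrix.mul_assoc (cdbM l (Gam Q k) x)]

/-- The sum over the curvature of `Q`. -/
theorem curv_sum (hC : S_CSY) (hQ : KEt T R Q) (hchf : CHF Q T) (hx : x ∈ T) :
    ∑ k, ∑ l, (Q x)⁻¹ l k • cdbM l (Gam Q k) x = rho Q x * (Q x)⁻¹ := by
  have hu : IsUnit (Q x).det := isUnit_iff_ne_zero.2 (posDef_det (hQ.posDef x hx))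
  have h1 : (∑ k, ∑ l, (Q x)⁻¹ l k • cdbM l (Gam Q k) x) * Q x = rho Q x := by
    ext i j
    obtain ⟨c1, -, c3⟩ := hC T hQ.et.isOpen Q hQ.posDef hQ.smooth x hx
    have c4 := (c3 hchf).2 i j
    rw [← neg_eq_iff_eq_neg] at c4
    rw [← c4]
    simp only [Finset.sum_mul, Matrix.sum_apply, Matrix.smul_mul, Matrix.smul_apply, c1,
      smul_eq_mul, ← Finset.sum_neg_distrib, Matrix.neg_mul, Matrix.neg_apply, mul_neg, neg_neg]
  calc ∑ k, ∑ l, (Q x)⁻¹ l k • cdbM l (Gam Q k) x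
      = (∑ k, ∑ l, (Q x)⁻¹ l k • cdbM l (Gam Q k) x) * Q x * (Q x)⁻¹ := by
        rw [Matrix.mul_assoc, Matrix.mul_nonsing_inv _ hu, Matrix.mul_one]
    _ = _ := by rw [h1]

/-- The Laplacian of `tr (g K)`. -/
theorem trL_t (hC : S_CSY) (hS : SD T R σ h) (hQ : KEt T R Q) (hchf : CHF Q T) (hx : x ∈ T) :
    (trL Q (tS σ h Q) x).re =
      - (Matrix.trace (rho Q x * (Q x)⁻¹ * gS σ h x * (Q x)⁻¹)).re + AAs σ h Q x +
        NKs σ h Q x := by
  have htr : trL Q (tS σ h Q) x = ∑ k, ∑ l, (Q x)⁻¹ l k * LM (tS σ h Q) x k l := by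
    rw [trL, Matrix.trace]
    simp only [Matrix.diag_apply, Matrix.mul_apply]
    rw [Finset.sum_comm]
  have h1 : ∑ k, ∑ l, (Q x)⁻¹ l k * Matrix.trace (cdbM l (Gam Q k) x *
      (σ x * (h x * (σ x)ᴴ * (Q x)⁻¹))) =
      Matrix.trace (rho Q x * (Q x)⁻¹ * gS σ h x * (Q x)⁻¹) := by
    have h2 : ∑ k, ∑ l, (Q x)⁻¹ l k * Matrix.trace (cdbM l (Gam Q k) x *
        (σ x * (h x * (σ x)ᴴ * (Q x)⁻¹))) = Matrix.trace ((∑ k, ∑ l, (Q x)⁻¹ l k •
          cdbM l (Gam Q k) x) * (σ x * (h x * (σ x)ᴴ * (Q x)⁻¹))) := by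
      simp only [Finset.sum_mul, Matrix.trace_sum, Matrix.smul_mul, Matrix.trace_smul,
        smul_eq_mul]
    rw [h2, curv_sum hC hQ hchf hx]
    unfold gS
    simp only [Matrix.mul_assoc]
  rw [htr]
  simp only [LM_t hS hQ hx]
  have h3 : ∑ k, ∑ l, (Q x)⁻¹ l k *
      (Matrix.trace (σ x * RE h k l x * (h x * (σ x)ᴴ * (Q x)⁻¹)) -
      Matrix.trace (cdbM l (Gam Q k) x * (σ x * (h x * (σ x)ᴴ * (Q x)⁻¹))) +
      Matrix.trace (tauS σ h Q k x * (h x * (tauS σ h Q l x)ᴴ * (Q x)⁻¹))) =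
      ∑ k, ∑ l, (Q x)⁻¹ l k * Matrix.trace (σ x * (RE h k l x * h x) * (σ x)ᴴ * (Q x)⁻¹) -
      ∑ k, ∑ l, (Q x)⁻¹ l k * Matrix.trace (cdbM l (Gam Q k) x *
        (σ x * (h x * (σ x)ᴴ * (Q x)⁻¹))) +
      ∑ k, ∑ l, (Q x)⁻¹ l k *
        Matrix.trace (tauS σ h Q k x * h x * (tauS σ h Q l x)ᴴ * (Q x)⁻¹) := by
    rw [← Finset.sum_sub_distrib, ← Finset.sum_add_distrib]
    refine Finset.sum_congr rfl fun k _ => ?_
    rw [← Finset.sum_sub_distrib, ← Finset.sum_add_distrib]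
    refine Finset.sum_congr rfl fun l _ => ?_
    simp only [Matrix.mul_assoc]
    ring
  rw [h3, h1, Complex.add_re, Complex.sub_re]
  unfold AAs NKs
  ring

end ident

theorem InvH.addH {n : ℕ} {G : Type u} {R : G → Cn n → Cn n → Prop}
    {A B : Cn n → Matrix (Fin n) (Fin n) ℂ} (hA : InvH R A) (hB : InvH R B) :
    InvH R fun x => A x + B x := by
  intro U τ hU x hx u v
  have h1 : ∀ (X Y : Matrix (Fin n) (Fin n) ℂ) (a b : Cn n),
      hermi (X + Y) a b = hermi X a b + hermi Y a b := by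
    intro X Y a b
    unfold hermi
    simp only [Matrix.add_apply, add_mul, Finset.sum_add_distrib]
  show hermi (A (τ x) + B (τ x)) _ _ = hermi (A x + B x) u v
  rw [h1, h1, hA U τ hU x hx u v, hB U τ hU x hx u v]

/-- SCL. -/
theorem scl (hC : S_CSY) (hTRI : Pool.Agent.Helper95.HS.S_TRI.{u})
    (hKETP : Pool.Agent.Helper95.HS.S_KETP.{u}) (hRHOI : S_RHOI.{u}) (hIFN : S_IFN.{u}) :
    S_SCL.{u} := by
  intro n m T G _ R σ h hS Q η hQ hη
  have hT : IsOpen T := hQ.et.isOpen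
  have hs := sm_sigma hT hS
  obtain ⟨-, k2, k3⟩ := hKETP T R hQ.et
  obtain ⟨-, hchf, hinvQ⟩ := k2 Q Q hQ hQ
  have hHer : HerT T R Q := ⟨hQ.posDef, hQ.smooth, hinvQ⟩
  have hgs : SmR (gS σ h) T := sm_gS hT hS
  have htI : InvF T R (tS σ h Q) := (hTRI T R Q hQ).1 (gS σ h) hgs hS.inv
  have hKs := K_smooth hQ
  have hAs : ContinuousOn (AAs σ h Q) T := by
    unfold AAs
    refine Complex.continuous_re.comp_continuousOn ?_
    refine continuousOn_finsetSum _ fun k _ => continuousOn_finsetSum _ fun l _ => ?_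
    refine (hKs l k).continuousOn.mul ?_
    have h1 : SmM (fun x => tauS σ h Q k x * h x * (tauS σ h Q l x)ᴴ * (Q x)⁻¹) T :=
      SmR.mul (SmR.mul (SmR.mul (sm_tau hT hS hQ k) (Y := h) hS.smooth)
        (sm_tau hT hS hQ l).conjTranspose) hKs
    exact h1.trace.continuousOn
  have hNs : ContinuousOn (NKs σ h Q) T := by
    unfold NKs
    refine Complex.continuous_re.comp_continuousOn ?_
    refine continuousOn_finsetSum _ fun k _ => continuousOn_finsetSum _ fun l _ => ?_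
    refine (hKs l k).continuousOn.mul ?_
    have h0 : SmR (RE h k l) T := RE_smooth hT hS.smooth hS.posDef k l
    have h1 : SmM (fun x => σ x * (RE h k l x * h x) * (σ x)ᴴ * (Q x)⁻¹) T :=
      SmR.mul (SmR.mul (SmR.mul hs (SmR.mul h0 (Y := h) hS.smooth)) hs.conjTranspose) hKs
    exact h1.trace.continuousOn
  have hρinv : InvH R (rho Q) := (hRHOI T R Q hQ.et hHer).2.1
  refine ⟨hgs, htI, hAs, hNs, ?_, ?_⟩
  · -- invariance of the sum
    intro γ x y hxy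
    have hxT := (hQ.et.mem _ _ _ hxy).1
    have hyT := (hQ.et.mem _ _ _ hxy).2
    have e1 : ∀ z ∈ T, AAs σ h Q z + NKs σ h Q z = (trL Q (tS σ h Q) z).re +
        (Matrix.trace (rho Q z * (Q z)⁻¹ * gS σ h z * (Q z)⁻¹)).re := by
      intro z hz
      rw [trL_t hC hS hQ hchf hz]
      ring
    rw [e1 x hxT, e1 y hyT]
    have e2 := (k3 Q (tS σ h Q) hQ htI).1.2 γ x y hxy
    have e3 : ∀ z : Cn n, Matrix.trace (rho Q z * (Q z)⁻¹ * gS σ h z * (Q z)⁻¹) =
        (1 / 2 : ℂ) * (Matrix.trace ((rho Q z + gS σ h z) * (Q z)⁻¹ *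
          ((rho Q z + gS σ h z) * (Q z)⁻¹)) -
          Matrix.trace (rho Q z * (Q z)⁻¹ * (rho Q z * (Q z)⁻¹)) -
          Matrix.trace (gS σ h z * (Q z)⁻¹ * (gS σ h z * (Q z)⁻¹))) := by
      intro z
      have h1 : Matrix.trace (gS σ h z * (Q z)⁻¹ * (rho Q z * (Q z)⁻¹)) =
          Matrix.trace (rho Q z * (Q z)⁻¹ * (gS σ h z * (Q z)⁻¹)) := Matrix.trace_mul_comm _ _
      have h2 : rho Q z * (Q z)⁻¹ * gS σ h z * (Q z)⁻¹ =
          rho Q z * (Q z)⁻¹ * (gS σ h z * (Q z)⁻¹) := by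
        simp only [Matrix.mul_assoc]
      rw [h2]
      simp only [Matrix.add_mul, Matrix.mul_add, Matrix.trace_add]
      rw [h1]
      ring
    have f1 := (hIFN T R hQ.et Q (fun x => rho Q x + gS σ h x) hHer
      (InvH.addH hρinv hS.inv)).2 γ x y hxy
    have f2 := (hIFN T R hQ.et Q (rho Q) hHer hρinv).2 γ x y hxy
    have f3 := (hIFN T R hQ.et Q (gS σ h) hHer hS.inv).2 γ x y hxy
    have e4 : Matrix.trace (rho Q y * (Q y)⁻¹ * gS σ h y * (Q y)⁻¹) =
        Matrix.trace (rho Q x * (Q x)⁻¹ * gS σ h x * (Q x)⁻¹) := by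
      rw [e3 x, e3 y, f1.2.2, f2.2.2, f3.2.2]
    have e5 : (trL Q (tS σ h Q) y).re = (trL Q (tS σ h Q) x).re := e2
    rw [e4, e5]
  · intro x hx
    have hKp : ((Q x)⁻¹).PosSemidef := (hQ.posDef x hx).inv.posSemidef
    have hhp := (hS.posDef x hx).posSemidef
    obtain ⟨a1, a2, a3, a4⟩ := aaps_rect hKp hhp (fun k => tauS σ h Q k x) (σ x)
    have hcd : ∀ k, cd k (fun y => ((tS σ h Q y : ℝ) : ℂ)) x =
        Matrix.trace (tauS σ h Q k x * h x * (σ x)ᴴ * (Q x)⁻¹) := by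
      intro k
      rw [(cd_congr' hT hx (fun y hy => tS_real hS hQ hy) k).1, cd_t hS hQ hx k]
      simp only [Matrix.mul_assoc]
    refine ⟨gS_psd (hS.posDef x hx), a2, a1, ?_, hcd, fun l => cdbR_B hS hQ hx l, ?_, ?_⟩
    · exact nk_nonneg hKp (fun k l => σ x * (RE h k l x * h x) * (σ x)ᴴ) (hS.neg x hx)
    · rw [trL_t hC hS hQ hchf hx, hη x hx]
      have hu : IsUnit (Q x).det := isUnit_iff_ne_zero.2 (posDef_det (hQ.posDef x hx))
      have h1 : Matrix.trace ((Q x - η x) * (Q x)⁻¹ * gS σ h x * (Q x)⁻¹) =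
          Matrix.trace (gS σ h x * (Q x)⁻¹) -
            Matrix.trace (η x * (Q x)⁻¹ * gS σ h x * (Q x)⁻¹) := by
        rw [Matrix.sub_mul, Matrix.mul_nonsing_inv _ hu, Matrix.sub_mul, Matrix.one_mul,
          Matrix.sub_mul, Matrix.trace_sub]
      rw [h1, Complex.sub_re]
      unfold tS
      ring
    · simp only [hcd]
      exact a4

end Pool.Agent.Helper82.HB
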