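import Pool.Agent.Helper10.RBC.Goals
import Pool.Agent.Helper57.RBC.Goals2
import Pool.Agent.Helper15.RBC.GoalsE

/-!
# HB: compact Kähler manifolds with a form `g = σ h σᴴ` of nonpositive curvature along `σ`

`σ : T_M → E` holomorphic, `(E, h)` a Hermitian holomorphic bundle whose Chern curvature is nonpositive on the
image of `σ`, and `rho_v + g > 0` for an invariant volume form `v`. On the étale relation everything is given
by matrix fields on the open set `T` (a disjoint union of balls): `σ : Cn n → Matrix (Fin n) (Fin m) ℂ` (row `i` is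
the image of `∂_i`; row vectors `w` are mapped to `w ᵥ* σ`), `h : Cn n → Matrix (Fin m) (Fin m) ℂ`. Only `g = σ h σᴴ` is
invariant under the relation `R`, not `σ` and `h`. Conventions of `Helper57/HS/Defs.lean`: `cd k = 2 ∂_k`, matrices
act on rows, `Gam Q k = (cd k Q) Q⁻¹`.
-/

open Complex Metric Set Filter Topology MeasureTheory
open scoped ContDiff ComplexConjugate ComplexOrder Manifold Matrix

namespace Pool.Agent.Helper82.HB

open Pool.Agent.Helper95.Lin Pool.Agent.Helper16.Abund Pool.Agent.Helper92.Orb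
  Pool.Agent.Helper10.SP Pool.Agent.Helper95.RK Pool.Agent.Helper57.HS
  Pool.Agent.Helper15.HS Pool.Agent.Helper15.GS Pool.Agent.Helper57.RBC
open Pool.Agent.Helper10.RBC (dn)

universe u v

variable {n m : ℕ}

/-! ## Fields of rectangular matrices -/

/-- Entrywise `cd k`. -/
noncomputable def cdR {p q : ℕ} (k : Fin n) (σ : Cn n → Matrix (Fin p) (Fin q) ℂ) (x : Cn n) :
    Matrix (Fin p) (Fin q) ℂ := Matrix.of fun i a => cd k (fun y => σ y i a) x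

/-- Entrywise `cdb k`. -/
noncomputable def cdbR {p q : ℕ} (k : Fin n) (σ : Cn n → Matrix (Fin p) (Fin q) ℂ) (x : Cn n) :
    Matrix (Fin p) (Fin q) ℂ := Matrix.of fun i a => cdb k (fun y => σ y i a) x

/-- The connection matrix `(cd k h) h⁻¹` of the metric `h` of the trivial bundle of rank `m`. -/
noncomputable def GamE (h : Cn n → Matrix (Fin m) (Fin m) ℂ) (k : Fin n) (x : Cn n) :
    Matrix (Fin m) (Fin m) ℂ := cdM k h x * (h x)⁻¹

/-- The matrices `cdb l Γ_k`; the curvature form of `h` is `- (cdb l Γ_k) h`. -/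
noncomputable def RE (h : Cn n → Matrix (Fin m) (Fin m) ℂ) (k l : Fin n) (x : Cn n) :
    Matrix (Fin m) (Fin m) ℂ := cdbM l (GamE h k) x

/-- The form `g = σ h σᴴ`. -/
noncomputable def gS (σ : Cn n → Matrix (Fin n) (Fin m) ℂ) (h : Cn n → Matrix (Fin m) (Fin m) ℂ)
    (x : Cn n) : Matrix (Fin n) (Fin n) ℂ := σ x * h x * (σ x)ᴴ

/-- The endomorphism `X = ε h σᴴ Q⁻¹ σ` of the trivial bundle. -/
noncomputable def XS (ε : ℝ) (σ : Cn n → Matrix (Fin n) (Fin m) ℂ)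
    (h : Cn n → Matrix (Fin m) (Fin m) ℂ) (Q : Cn n → Matrix (Fin n) (Fin n) ℂ) (x : Cn n) :
    Matrix (Fin m) (Fin m) ℂ := (ε : ℂ) • (h x * (σ x)ᴴ * (Q x)⁻¹ * σ x)

/-- The covariant derivative `cd k σ + σ Γ_k - Gam Q k σ` of `σ`. -/
noncomputable def tauS (σ : Cn n → Matrix (Fin n) (Fin m) ℂ)
    (h : Cn n → Matrix (Fin m) (Fin m) ℂ) (Q : Cn n → Matrix (Fin n) (Fin n) ℂ) (k : Fin n)
    (x : Cn n) : Matrix (Fin n) (Fin m) ℂ :=
  cdR k σ x + σ x * GamE h k x - Gam Q k x * σ x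

/-- The trace `tr (g Q⁻¹)`. -/
noncomputable def tS (σ : Cn n → Matrix (Fin n) (Fin m) ℂ)
    (h : Cn n → Matrix (Fin m) (Fin m) ℂ) (Q : Cn n → Matrix (Fin n) (Fin n) ℂ) (x : Cn n) : ℝ :=
  (Matrix.trace (gS σ h x * (Q x)⁻¹)).re

/-- The gradient term `∑ (Q⁻¹) l k tr (τ_k h τ_lᴴ Q⁻¹)`. (Not invariant under the relation.) -/
noncomputable def AAs (σ : Cn n → Matrix (Fin n) (Fin m) ℂ)
    (h : Cn n → Matrix (Fin m) (Fin m) ℂ) (Q : Cn n → Matrix (Fin n) (Fin n) ℂ) (x : Cn n) : ℝ :=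
  (∑ k, ∑ l, (Q x)⁻¹ l k *
    Matrix.trace (tauS σ h Q k x * h x * (tauS σ h Q l x)ᴴ * (Q x)⁻¹)).re

/-- The curvature term `∑ (Q⁻¹) l k tr (σ (cdb l Γ_k) h σᴴ Q⁻¹)`, which is `≥ 0` if the curvature is nonpositive.
(Not invariant under the relation.) -/
noncomputable def NKs (σ : Cn n → Matrix (Fin n) (Fin m) ℂ)
    (h : Cn n → Matrix (Fin m) (Fin m) ℂ) (Q : Cn n → Matrix (Fin n) (Fin n) ℂ) (x : Cn n) : ℝ :=
  (∑ k, ∑ l, (Q x)⁻¹ l k *
    Matrix.trace (σ x * (RE h k l x * h x) * (σ x)ᴴ * (Q x)⁻¹)).re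

/-- The curvature of `h` is nonpositive on the image of `σ`: `∑ u_k conj(u_l) (w σ) (cdb l Γ_k) h (w σ)ᴴ ≥ 0`. -/
def NegS (T : Set (Cn n)) (σ : Cn n → Matrix (Fin n) (Fin m) ℂ)
    (h : Cn n → Matrix (Fin m) (Fin m) ℂ) : Prop :=
  ∀ x ∈ T, ∀ u w : Cn n, 0 ≤ (∑ k, ∑ l, u k * conj (u l) *
    hermi (σ x * (RE h k l x * h x) * (σ x)ᴴ) w w).re

/-! ## Data -/

/-- `σ` is holomorphic, `h` a metric with nonpositive curvature along `σ`, and `g = σ h σᴴ` is invariant. -/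
structure SD (T : Set (Cn n)) {G : Type u} (R : G → Cn n → Cn n → Prop)
    (σ : Cn n → Matrix (Fin n) (Fin m) ℂ) (h : Cn n → Matrix (Fin m) (Fin m) ℂ) : Prop where
  holo : ∀ i a, DifferentiableOn ℂ (fun x => σ x i a) T
  posDef : ∀ x ∈ T, (h x).PosDef
  smooth : ∀ a b, ContDiffOn ℝ ∞ (fun x => h x a b) T
  inv : InvH R (gS σ h)
  neg : NegS T σ h

/-- The data of the theorem: `v = exp ψ det H` is the invariant volume form. -/
structure HDat (T : Set (Cn n)) {G : Type u} [Group G] (R : G → Cn n → Cn n → Prop)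
    (H : Cn n → Matrix (Fin n) (Fin n) ℂ) (σ : Cn n → Matrix (Fin n) (Fin m) ℂ)
    (h : Cn n → Matrix (Fin m) (Fin m) ℂ) (ψ : Cn n → ℝ) : Prop where
  ket : KEt T R H
  sd : SD T R σ h
  psi : InvF T R ψ
  pos : ∀ x ∈ T, (rho H x + LM ψ x + gS σ h x).PosDef

/-! ## The projector -/

/-- `P` is a holomorphic `h`-selfadjoint projector of rank `r` of the trivial bundle of rank `m`, its image is
flat, and `β = (σ P) h (σ P)ᴴ` is invariant and closed. -/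
structure ParS (r : ℕ) (T : Set (Cn n)) {G : Type u} (R : G → Cn n → Cn n → Prop)
    (σ : Cn n → Matrix (Fin n) (Fin m) ℂ) (h P : Cn n → Matrix (Fin m) (Fin m) ℂ) : Prop where
  holo : ∀ a b, DifferentiableOn ℂ (fun x => P x a b) T
  proj : ∀ x ∈ T, P x * P x = P x
  tr : ∀ x ∈ T, Matrix.trace (P x) = r
  herm : ∀ x ∈ T, P x * h x = h x * (P x)ᴴ
  flat : ∀ x ∈ T, ∀ k l, P x * RE h k l x = 0
  inv : InvH R (gS (fun x => σ x * P x) h)
  chf : CHF (gS (fun x => σ x * P x) h) T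

/-- The minimising sequence and the limit `X` of the endomorphisms `X_j = ε_j h σᴴ Q_j⁻¹ σ`; `P` is the projector on
the image of `X`. -/
structure LimS (r : ℕ) (T : Set (Cn n)) {G : Type u} [Group G] (R : G → Cn n → Cn n → Prop)
    (κ : Cn n → ℝ) (H : Cn n → Matrix (Fin n) (Fin n) ℂ)
    (σ : Cn n → Matrix (Fin n) (Fin m) ℂ) (h X P : Cn n → Matrix (Fin m) (Fin m) ℂ)
    (s : ℝ) (S N : ℕ → ℝ) (φ : ℕ → Cn n → ℝ) (H' : ℕ → Cn n → Matrix (Fin n) (Fin n) ℂ)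
    (ε : ℕ → ℝ) (Q : ℕ → Cn n → Matrix (Fin n) (Fin n) ℂ) : Prop where
  seq : SeqR T R H (gS σ h) s S N φ H' ε Q
  par : ParS r T R σ h P
  cX : ∀ a b, ContinuousOn (fun x => X x a b) T
  XP : ∀ x ∈ T, X x * P x = X x ∧ P x * X x = X x
  pos : ∀ x ∈ T, (X x * h x).PosSemidef
  tr : ∀ x ∈ T, Matrix.trace (X x) = (s : ℂ)
  nd : ∃ α : ℝ, 0 < α ∧ ∀ x ∈ T, α ≤ (X x + (1 - P x)).det.re
  bX : ∀ C ⊆ T, IsCompact C → ∃ B : ℝ, ∀ j, ∀ x ∈ C, ∀ a c, ‖XS (ε j) σ h (Q j) x a c‖ ≤ B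
  conv : ∀ C ⊆ T, IsCompact C → ∀ a c, Tendsto (fun j => ∫ x in C, dn T κ H (Q j) x *
    ‖XS (ε j) σ h (Q j) x a c - X x a c‖) atTop (𝓝 0)

/-- HLIM. The output of the first part (helper29). -/
def S_HLIM : Prop := ∀ {n m : ℕ}, 0 < n → ∀ (T : Set (Cn n)) {G : Type u} [Group G]
  (R : G → Cn n → Cn n → Prop) (H : Cn n → Matrix (Fin n) (Fin n) ℂ)
  (σ : Cn n → Matrix (Fin n) (Fin m) ℂ) (h : Cn n → Matrix (Fin m) (Fin m) ℂ) (ψ : Cn n → ℝ),
  HDat T R H σ h ψ → ∀ κ, IsPUE T R κ →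
  ∃ (r : ℕ) (X P : Cn n → Matrix (Fin m) (Fin m) ℂ) (s : ℝ) (S N : ℕ → ℝ) (φ : ℕ → Cn n → ℝ)
    (H' : ℕ → Cn n → Matrix (Fin n) (Fin n) ℂ) (ε : ℕ → ℝ)
    (Q : ℕ → Cn n → Matrix (Fin n) (Fin n) ℂ),
    r ≤ m ∧ LimS r T R κ H σ h X P s S N φ H' ε Q

/-- HEX. Existence of the twisted Kähler–Einstein metrics (as GEX, REX). -/
def S_HEX : Prop := ∀ {n m : ℕ}, 0 < n → ∀ (T : Set (Cn n)) {G : Type u} [Group G]
  (R : G → Cn n → Cn n → Prop) (H : Cn n → Matrix (Fin n) (Fin n) ℂ)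
  (σ : Cn n → Matrix (Fin n) (Fin m) ℂ) (h : Cn n → Matrix (Fin m) (Fin m) ℂ) (ψ : Cn n → ℝ),
  HDat T R H σ h ψ → ∀ ε : ℝ, 0 < ε → ∃ Q, TKE T R H ε Q

end Pool.Agent.Helper82.HB
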