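import Pool.Agent.Helper82.HB.SCL
import Pool.Agent.Helper57.HX.GoalsH
import Pool.Agent.Helper46.GS.GLG

/-! # HB SLG: the differential inequalities, and the packaging S_HX of Helper57 -/

open Complex Metric Set Filter Topology MeasureTheory
open scoped ContDiff ComplexConjugate ComplexOrder Manifold Matrix

namespace Pool.Agent.Helper82.HB

open Pool.Agent.Helper95.Lin Pool.Agent.Helper16.Abund Pool.Agent.Helper92.Orb
  Pool.Agent.Helper10.SP Pool.Agent.Helper95.RK Pool.Agent.Helper57.HS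
  Pool.Agent.Helper15.HS Pool.Agent.Helper15.GS Pool.Agent.Helper57.RBC

universe u

theorem deriv_logadd (δ : ℝ) : deriv (fun r : ℝ => Real.log (r + δ)) = fun r => (r + δ)⁻¹ := by
  funext s
  rw [deriv_comp_add_const, Real.deriv_log]

theorem deriv2_logadd {δ s : ℝ} (hs : 0 < s + δ) :
    deriv (deriv (fun r : ℝ => Real.log (r + δ))) s = - ((s + δ) ^ 2)⁻¹ := by
  rw [deriv_logadd]
  have h1 : HasDerivAt (fun r : ℝ => r + δ) 1 s := (hasDerivAt_id s).add_const δ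
  have h2 := (h1.inv hs.ne').deriv
  have h3 : (fun r : ℝ => (r + δ)⁻¹) = (fun r : ℝ => r + δ)⁻¹ := rfl
  rw [h3, h2, neg_div, one_div]

/-- The inequality for the logarithm at a point. -/
theorem log_core (hSCL : S_SCL.{u}) (hCHN : Pool.Agent.Helper95.HS.S_CHN) {n m : ℕ}
    {T : Set (Cn n)} {G : Type u} [Group G] {R : G → Cn n → Cn n → Prop}
    {σ : Cn n → Matrix (Fin n) (Fin m) ℂ} {h : Cn n → Matrix (Fin m) (Fin m) ℂ}
    (hS : SD T R σ h) {Q : Cn n → Matrix (Fin n) (Fin n) ℂ} (hQ : KEt T R Q) {x : Cn n}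
    (hx : x ∈ T) (hL : - tS σ h Q x + AAs σ h Q x ≤ (trL Q (tS σ h Q) x).re) {δ : ℝ}
    (hδ : 0 < δ) : -1 ≤ (trL Q (fun y => Real.log (tS σ h Q y + δ)) x).re := by
  have hT := hQ.et.isOpen
  obtain ⟨-, hInv, -, -, -, hpt⟩ := hSCL T R σ h hS Q (fun y => Q y - rho Q y) hQ
    (fun y _ => by abel)
  have ht0 : ∀ y ∈ T, 0 ≤ tS σ h Q y := fun y hy => (hpt y hy).2.1
  obtain ⟨-, q2, q3, -, -, -, -, q8⟩ := hpt x hx
  have hJ : MapsTo (tS σ h Q) T (Ioi (-δ)) := fun y hy => by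
    have := ht0 y hy
    show -δ < tS σ h Q y
    linarith
  have hFs : ContDiffOn ℝ ∞ (fun r : ℝ => Real.log (r + δ)) (Ioi (-δ)) := by
    apply ContDiffOn.log
    · exact (contDiff_id.add contDiff_const).contDiffOn
    · intro r hr
      have : -δ < r := hr
      have : (0 : ℝ) < r + δ := by linarith
      exact this.ne'
  obtain ⟨-, hch⟩ := hCHN T hT (tS σ h Q) (fun r => Real.log (r + δ)) (Ioi (-δ)) hInv.1
    isOpen_Ioi hFs hJ
  obtain ⟨-, hch2⟩ := hch x hx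
  set t : ℝ := tS σ h Q x with ht
  have hsp : 0 < t + δ := by linarith
  have hd1 : deriv (fun r : ℝ => Real.log (r + δ)) t = (t + δ)⁻¹ := by
    rw [deriv_logadd]
  have hd2 := deriv2_logadd (δ := δ) (s := t) hsp
  have hlog : trL Q (fun y => Real.log (tS σ h Q y + δ)) x =
      (((t + δ)⁻¹ : ℝ) : ℂ) * trL Q (tS σ h Q) x -
      ((((t + δ) ^ 2)⁻¹ : ℝ) : ℂ) * ∑ k, ∑ l, (Q x)⁻¹ l k *
        (cd k (fun y => ((tS σ h Q y : ℝ) : ℂ)) x *
          conj (cd l (fun y => ((tS σ h Q y : ℝ) : ℂ)) x)) := by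
    have e1 : ∀ u : Cn n → ℝ, trL Q u x = ∑ k, ∑ l, (Q x)⁻¹ l k * LM u x k l := by
      intro u
      unfold trL
      rw [Finset.sum_comm]
      simp only [Matrix.trace, Matrix.diag, Matrix.mul_apply]
    rw [e1, e1, Finset.mul_sum, Finset.mul_sum, ← Finset.sum_sub_distrib]
    refine Finset.sum_congr rfl fun k _ => ?_
    rw [Finset.mul_sum, Finset.mul_sum, ← Finset.sum_sub_distrib]
    refine Finset.sum_congr rfl fun l _ => ?_
    rw [hch2 k l, hd1, hd2]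
    push_cast
    ring
  have hfin : (trL Q (fun y => Real.log (tS σ h Q y + δ)) x).re =
      (t + δ)⁻¹ * (trL Q (tS σ h Q) x).re -
      ((t + δ) ^ 2)⁻¹ * (∑ k, ∑ l, (Q x)⁻¹ l k * (cd k (fun y => ((tS σ h Q y : ℝ) : ℂ)) x *
          conj (cd l (fun y => ((tS σ h Q y : ℝ) : ℂ)) x))).re := by
    rw [hlog, Complex.sub_re, Complex.re_ofReal_mul, Complex.re_ofReal_mul]
  rw [hfin]
  have b1 : (t + δ)⁻¹ * (- t + AAs σ h Q x) ≤ (t + δ)⁻¹ * (trL Q (tS σ h Q) x).re :=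
    mul_le_mul_of_nonneg_left hL (by positivity)
  have b2 := mul_le_mul_of_nonneg_left q8 (show 0 ≤ ((t + δ) ^ 2)⁻¹ by positivity)
  have b3 : (t + δ)⁻¹ * (- t + AAs σ h Q x) - ((t + δ) ^ 2)⁻¹ * (t * AAs σ h Q x) + 1 =
      δ * (t + δ + AAs σ h Q x) * ((t + δ) ^ 2)⁻¹ := by
    field_simp
    ring
  have b4 : 0 ≤ δ * (t + δ + AAs σ h Q x) * ((t + δ) ^ 2)⁻¹ := by
    have : 0 ≤ t + δ + AAs σ h Q x := by linarith
    positivity
  linarith

/-- The term with the form `η`. -/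
theorem eta_term {n m : ℕ} {σ : Cn n → Matrix (Fin n) (Fin m) ℂ}
    {h : Cn n → Matrix (Fin m) (Fin m) ℂ} {x : Cn n} {K E : Matrix (Fin n) (Fin n) ℂ}
    (hp : (gS σ h x).PosSemidef) (hK : K.IsHermitian) (hE : E.PosSemidef) :
    0 ≤ (Matrix.trace (E * K * gS σ h x * K)).re := by
  have h1 : E * K * gS σ h x * K = E * (K * gS σ h x * Kᴴ) := by
    rw [hK.eq]
    simp only [Matrix.mul_assoc]
  rw [h1]
  exact Pool.Agent.Helper46.GS.trace_mul_nonneg hE (hp.mul_mul_conjTranspose_same _)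

theorem slg (hSCL : S_SCL.{u}) (hCHN : Pool.Agent.Helper95.HS.S_CHN) : S_SLG.{u} := by
  intro n m T G _ R σ h hS Q η hQ hη hrho
  have hT := hQ.et.isOpen
  obtain ⟨-, hInv, -, -, -, hpt⟩ := hSCL T R σ h hS Q η hQ hrho
  have hL : ∀ x ∈ T, - tS σ h Q x + AAs σ h Q x ≤ (trL Q (tS σ h Q) x).re := by
    intro x hx
    obtain ⟨q1, -, -, q4, -, -, q7, -⟩ := hpt x hx
    have h1 := eta_term q1 (hQ.posDef x hx).inv.isHermitian (hη x hx)
    rw [q7]
    linarith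
  refine ⟨fun x hx => ?_, fun δ hδ => ⟨⟨hInv.1.add contDiffOn_const, fun γ x y hR => ?_⟩,
    fun x hx => log_core hSCL hCHN hS hQ hx (hL x hx) hδ⟩⟩
  · have h1 := hL x hx
    have h2 := (hpt x hx).2.2.1
    linarith
  · show tS σ h Q y + δ = tS σ h Q x + δ
    rw [hInv.2 γ x y hR]

/-- S_HX of Helper57. -/
theorem hx (hSCL : S_SCL.{u}) (hCHN : Pool.Agent.Helper95.HS.S_CHN) :
    Pool.Agent.Helper57.HX.S_HX.{u} := by
  intro n m T G _ R H σ h ψ D
  have hT := D.ket.et.isOpen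
  have hS := D.sd
  obtain ⟨hgs, -, -, -, -, hptH⟩ := hSCL T R σ h hS H (fun y => H y - rho H y) D.ket
    (fun y _ => by abel)
  have key : ∀ Q : Cn n → Matrix (Fin n) (Fin n) ℂ, KEt T R Q → ∀ x ∈ T,
      (trL Q (tS σ h Q) x).re = - (Matrix.trace (rho Q x * (Q x)⁻¹ * gS σ h x * (Q x)⁻¹)).re +
        AAs σ h Q x + NKs σ h Q x ∧ 0 ≤ AAs σ h Q x ∧ 0 ≤ NKs σ h Q x := by
    intro Q hQ x hx
    obtain ⟨-, -, -, -, -, hpt⟩ := hSCL T R σ h hS Q (fun y => Q y - rho Q y) hQ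
      (fun y _ => by abel)
    obtain ⟨q1, -, q3, q4, -, -, q7, -⟩ := hpt x hx
    refine ⟨?_, q3, q4⟩
    rw [q7]
    have hu : IsUnit (Q x).det := isUnit_iff_ne_zero.2 (Pool.Agent.Helper45.HS.posDef_det (hQ.posDef x hx))
    have h1 : Matrix.trace ((Q x - rho Q x) * (Q x)⁻¹ * gS σ h x * (Q x)⁻¹) =
        Matrix.trace (gS σ h x * (Q x)⁻¹) -
          Matrix.trace (rho Q x * (Q x)⁻¹ * gS σ h x * (Q x)⁻¹) := by
      rw [Matrix.sub_mul, Matrix.mul_nonsing_inv _ hu, Matrix.sub_mul, Matrix.one_mul,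
        Matrix.sub_mul, Matrix.trace_sub]
    rw [h1, Complex.sub_re]
    unfold tS
    ring
  refine ⟨D.ket, fun x hx => (hptH x hx).1, hgs, hS.inv, D.psi, D.pos, ?_, ?_⟩
  · intro Q hQ x hx
    obtain ⟨k1, k2, k3⟩ := key Q hQ x hx
    show _ ≤ (trL Q (tS σ h Q) x).re
    rw [k1]
    linarith
  · intro Q hQ hps x hx
    show -1 ≤ (trL Q (fun y => Real.log (tS σ h Q y + 1)) x).re
    refine ((slg hSCL hCHN) T R σ h hS Q (fun y => Q y - rho Q y) hQ hps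
      (fun y _ => by abel)).2 1 one_pos |>.2 x hx

end Pool.Agent.Helper82.HB
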