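import Pool.Agent.Helper82.HB.GoalsB
import Pool.Agent.Helper57.HX.GoalsH
import Pool.Agent.Helper15.HS.AsmC

/-! # HB HOUT: the output -/

open Complex Metric Set Filter Topology MeasureTheory
open scoped ContDiff ComplexConjugate ComplexOrder Manifold Matrix

namespace Pool.Agent.Helper82.HB

open Pool.Agent.Helper95.Lin Pool.Agent.Helper16.Abund Pool.Agent.Helper92.Orb
  Pool.Agent.Helper10.SP Pool.Agent.Helper95.RK Pool.Agent.Helper57.HS
  Pool.Agent.Helper15.HS Pool.Agent.Helper15.GS Pool.Agent.Helper57.RBC Pool.Agent.Helper57.HX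
open Pool.Agent.Helper45.HS (SmM)
open Pool.Agent.Helper10.RBC (dn)

universe u

/-- HOUT. -/
theorem hout (hPUE : S_PUE.{u}) (hKAPI : S_KAPI.{u}) (hRHOI : S_RHOI.{u}) (hVOLP : S_VOLP.{u})
    (hHX : S_HX.{u}) (hXEX : S_XEX.{u}) (hXBK : S_XBK.{u}) (hHLIM : S_HLIM.{u})
    (hSBET : S_SBET.{u}) (hSNK : S_SNK.{u}) (hSVP : S_SVP.{u}) (hSHM : S_SHM.{u})
    (hHB5 : S_HB5.{u}) (hHNUL : S_HNUL.{u}) : S_HOUT.{u} := by
  intro n m hn T G _ R H σ h ψ D
  have hK := D.ket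
  have hTo : IsOpen T := hK.et.isOpen
  obtain ⟨κ, hκ⟩ := hPUE T R hK.et
  have hX := hHX T R H σ h ψ D
  have hex : ∀ ε : ℝ, 0 < ε → ∃ Q, TKE T R H ε Q := fun ε hε => hXEX T R H (gS σ h) ψ hX ε hε
  obtain ⟨-, k, p, hk, hp, hV⟩ := hVOLP T R H hK κ hκ hex
  obtain ⟨r, X, P, s, S, N, φ, H', ε, Q, -, L⟩ := hHLIM hn T R H σ h ψ D κ hκ
  have hkr := hSNK hn T R H σ h ψ D κ hκ k p hp hV r X P s S N φ H' ε Q L
  obtain ⟨hrk, hvol⟩ := hSVP hn T R H σ h ψ D κ hκ k p hp hV r X P s S N φ H' ε Q L hkr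
  subst hrk
  have hpar := L.par
  obtain ⟨hS1, -, hpt⟩ := hSBET T R hK.et σ h P r D.sd hpar
  have hHer : HerT T R H := ⟨hK.posDef, hK.smooth, hK.inv⟩
  obtain ⟨h1, h2, -⟩ := hRHOI T R H hK.et hHer
  set β : Cn n → Matrix (Fin n) (Fin n) ℂ := gS (fun y => σ y * P y) h with hβ
  have hvol' : ∀ κ', IsPUE T R κ' → 0 < ∫ x in T, κ' x * (rho H x + β x).det.re := by
    intro κ' hκ'
    rw [hKAPI T R hK.et κ' κ hκ' hκ (fun x => (rho H x + β x).det.re) ?_ ?_]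
    · exact hvol
    · have h3 : SmM (fun x => rho H x + β x) T :=
        SmM.add (X := rho H) h1.smooth hpar.chf.smooth
      exact Complex.continuous_re.comp_continuousOn h3.det.continuousOn
    · exact fun U τ hA x hx => det_density (invH_add h2 hpar.inv) U τ hA x hx
  have hB : BDat T R H β := ⟨hpar.chf, hpar.inv, fun x hx => (hpt x hx).2.1, hvol'⟩
  obtain ⟨Q', hQ'⟩ := hXBK hn T R H (gS σ h) ψ hX β hB
  have hW : ∀ κ', IsPUE T R κ' → ∀ t : ℝ, 0 ≤ t →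
      ∫ x in T, κ' x * (rho H x + (t : ℂ) • β x).det.re =
        t ^ r * ∫ x in T, κ' x * (rho H x + β x).det.re := by
    intro κ' hκ' t ht
    refine hSHM T R H hK hex κ' hκ' r p (fun s => ?_) σ h P D.sd hpar t ht
    rw [volP_indep hKAPI hRHOI hK hκ hκ' s]
    exact hV s
  have h5 := hHB5 T R H σ h P r hK D.sd hpar hW Q' hQ'
  have hn5 := hHNUL T R σ h P r D.sd hpar Q' hQ'.1 (fun x hx => (h5 x hx).2.2)
  refine ⟨r, Q', fun x => β x * (Q' x)⁻¹, hk, hQ'.1, fun x hx => ?_⟩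
  obtain ⟨a1, a2, -⟩ := h5 x hx
  have hu : IsUnit (Q' x).det :=
    isUnit_iff_ne_zero.2 (Pool.Agent.Helper45.HS.posDef_det (hQ'.1.posDef x hx))
  refine ⟨?_, a1, ?_, a2, fun i j l q => hn5 x hx i j l q⟩
  · have e := hQ'.2 x hx
    rw [Complex.ofReal_zero, zero_smul, sub_zero] at e
    rw [e, Matrix.nonsing_inv_mul_cancel_right _ _ hu]
  · show β x * (Q' x)⁻¹ * Q' x = Q' x * (β x * (Q' x)⁻¹)ᴴ
    rw [Matrix.nonsing_inv_mul_cancel_right _ _ hu, Matrix.conjTranspose_mul,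
      (hQ'.1.posDef x hx).inv.isHermitian.eq, (hpar.chf.herm x hx).eq, ← Matrix.mul_assoc,
      Matrix.mul_nonsing_inv _ hu, Matrix.one_mul]

end Pool.Agent.Helper82.HB
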