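import Pool.Agent.Helper82.HB.SCL

/-! # HB SBET: the forms `β` and `g'` -/

open Complex Metric Set Filter Topology MeasureTheory
open scoped ContDiff ComplexConjugate ComplexOrder Manifold Matrix

namespace Pool.Agent.Helper82.HB

open Pool.Agent.Helper95.Lin Pool.Agent.Helper16.Abund Pool.Agent.Helper92.Orb
  Pool.Agent.Helper10.SP Pool.Agent.Helper95.RK Pool.Agent.Helper57.HS
  Pool.Agent.Helper15.HS
open Pool.Agent.Helper45.HS (SmM cd_congr' posDef_det cdM_mul cdbM_mul cdM_congr cdbM_congr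
  cdM_conjTranspose cdbM_conjTranspose)

universe u

variable {n m : ℕ} {T : Set (Cn n)} {G : Type u} {R : G → Cn n → Cn n → Prop}
  {σ : Cn n → Matrix (Fin n) (Fin m) ℂ} {h P : Cn n → Matrix (Fin m) (Fin m) ℂ} {x : Cn n}
  {r : ℕ}

theorem flat_right (hT : IsOpen T) (hS : SD T R σ h) (hP : ParS r T R σ h P) (hx : x ∈ T)
    (k l : Fin n) : RE h k l x * P x = 0 := by
  have h1 : P x * (RE h l k x * h x) = 0 := by
    rw [← Matrix.mul_assoc, hP.flat x hx l k, Matrix.zero_mul]
  have h2 := congrArg Matrix.conjTranspose h1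
  rw [Matrix.conjTranspose_mul, RE_herm hT hS.smooth hS.posDef hx l k,
    Matrix.conjTranspose_zero, Matrix.mul_assoc, ← hP.herm x hx, ← Matrix.mul_assoc] at h2
  have hu : IsUnit (h x).det := isUnit_iff_ne_zero.2 (posDef_det (hS.posDef x hx))
  calc RE h k l x * P x = RE h k l x * P x * h x * (h x)⁻¹ := by
        rw [Matrix.mul_nonsing_inv_cancel_right _ _ hu]
    _ = 0 := by rw [h2, Matrix.zero_mul]

theorem gS_P (hP : P x * P x = P x) (hh : P x * h x = h x * (P x)ᴴ) :
    gS (fun y => σ y * P y) h x = σ x * (P x * h x) * (σ x)ᴴ := by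
  show σ x * P x * h x * (σ x * P x)ᴴ = _
  rw [Matrix.conjTranspose_mul]
  have h1 : P x * h x * (P x)ᴴ = P x * h x := by
    rw [Matrix.mul_assoc, ← hh, ← Matrix.mul_assoc, hP]
  calc σ x * P x * h x * ((P x)ᴴ * (σ x)ᴴ) = σ x * (P x * h x * (P x)ᴴ) * (σ x)ᴴ := by
        simp only [Matrix.mul_assoc]
    _ = _ := by rw [h1]

theorem proj_compl (hP : P x * P x = P x) : (1 - P x) * (1 - P x) = 1 - P x := by
  rw [Matrix.mul_sub, Matrix.mul_one, Matrix.sub_mul, Matrix.one_mul, hP, sub_self, sub_zero]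

theorem herm_compl (hh : P x * h x = h x * (P x)ᴴ) :
    (1 - P x) * h x = h x * (1 - P x)ᴴ := by
  rw [Matrix.conjTranspose_sub, Matrix.conjTranspose_one, Matrix.sub_mul, Matrix.mul_sub,
    Matrix.one_mul, Matrix.mul_one, hh]

theorem cdM_P (hT : IsOpen T) (hS : SD T R σ h) (hP : ParS r T R σ h P) (hx : x ∈ T)
    (l : Fin n) : cdM l P x = GamE h l x * P x - P x * GamE h l x := by
  have hPs : SmM P T := SmR.of_holo hT hP.holo
  have hPh : SmM (fun y => P y * h y) T := SmR.mul (X := P) (Y := h) hPs hS.smooth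
  have h1 : cdbM l (fun y => P y * h y) x = P x * (h x * (GamE h l x)ᴴ) := by
    rw [cdbM_mul hT hx hPs hS.smooth l, cdbM_E hT hS.smooth hS.posDef hx l]
    have h0 : cdbM l P x = 0 := cdbR_holo hT hx hP.holo l
    rw [h0, Matrix.zero_mul, zero_add]
  have hherm : ∀ y ∈ T, P y * h y = (P y * h y)ᴴ := by
    intro y hy
    rw [Matrix.conjTranspose_mul, (hS.posDef y hy).isHermitian.eq, hP.herm y hy]
  have h2 : cdM l (fun y => P y * h y) x = GamE h l x * (P x * h x) := by
    have e1 : cdM l (fun y => P y * h y) x = cdM l (fun y => (P y * h y)ᴴ) x :=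
      cdM_congr hT hx (fun y hy => hherm y hy) l
    rw [e1, cdM_conjTranspose hT hx hPh l, h1, Matrix.conjTranspose_mul,
      Matrix.conjTranspose_mul, Matrix.conjTranspose_conjTranspose,
      (hS.posDef x hx).isHermitian.eq, Matrix.mul_assoc, ← hP.herm x hx]
  have h3 : cdM l (fun y => P y * h y) x = cdM l P x * h x + P x * (GamE h l x * h x) := by
    rw [cdM_mul hT hx hPs hS.smooth l, gamE_mul (hS.posDef x hx) l]
  have hu : IsUnit (h x).det := isUnit_iff_ne_zero.2 (posDef_det (hS.posDef x hx))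
  have h4 : cdM l P x * h x = (GamE h l x * P x - P x * GamE h l x) * h x := by
    rw [Matrix.sub_mul, Matrix.mul_assoc, Matrix.mul_assoc, ← h2, h3]
    abel
  calc cdM l P x = cdM l P x * h x * (h x)⁻¹ := by
        rw [Matrix.mul_nonsing_inv_cancel_right _ _ hu]
    _ = _ := by rw [h4, Matrix.mul_nonsing_inv_cancel_right _ _ hu]

theorem holo_mul {p q s : ℕ} {A : Cn n → Matrix (Fin p) (Fin q) ℂ}
    {B : Cn n → Matrix (Fin q) (Fin s) ℂ} (hA : ∀ i j, DifferentiableOn ℂ (fun x => A x i j) T)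
    (hB : ∀ i j, DifferentiableOn ℂ (fun x => B x i j) T) (i : Fin p) (j : Fin s) :
    DifferentiableOn ℂ (fun x => (A x * B x) i j) T := by
  simp only [Matrix.mul_apply]
  exact DifferentiableOn.fun_sum fun a _ => (hA i a).mul (hB a j)

/-- SBET. -/
theorem sbet : S_SBET.{u} := by
  intro n m T G _ R hEt σ h P r hS hP
  have hT := hEt.isOpen
  have hdec : ∀ x ∈ T, gS σ h x = gS (fun y => σ y * P y) h x +
      gS (fun y => σ y * (1 - P y)) h x := by
    intro x hx
    have e2 : gS (fun y => σ y * (1 - P y)) h x = σ x * ((1 - P x) * h x) * (σ x)ᴴ :=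
      gS_P (P := fun y => 1 - P y) (proj_compl (hP.proj x hx)) (herm_compl (hP.herm x hx))
    rw [gS_P (hP.proj x hx) (hP.herm x hx), e2, ← Matrix.add_mul, ← Matrix.mul_add,
      ← Matrix.add_mul, add_sub_cancel, Matrix.one_mul]
    rfl
  have hneg1 : NegS T (fun x => σ x * P x) h := by
    intro x hx u w
    have h1 : ∀ k l, σ x * P x * (RE h k l x * h x) * (σ x * P x)ᴴ = 0 := by
      intro k l
      have e : σ x * P x * (RE h k l x * h x) = σ x * (P x * RE h k l x) * h x := by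
        simp only [Matrix.mul_assoc]
      rw [e, hP.flat x hx k l, Matrix.mul_zero, Matrix.zero_mul, Matrix.zero_mul]
    simp only [h1]
    have h2 : hermi (0 : Matrix (Fin n) (Fin n) ℂ) w w = 0 := by
      unfold hermi
      simp
    rw [h2]
    simp
  have hneg2 : NegS T (fun x => σ x * (1 - P x)) h := by
    intro x hx u w
    have h1 : ∀ k l, σ x * (1 - P x) * (RE h k l x * h x) * (σ x * (1 - P x))ᴴ =
        σ x * (RE h k l x * h x) * (σ x)ᴴ := by
      intro k l
      rw [Matrix.conjTranspose_mul]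
      have e1 : (1 - P x) * RE h k l x = RE h k l x := by
        rw [Matrix.sub_mul, Matrix.one_mul, hP.flat x hx k l, sub_zero]
      have e2 : RE h k l x * (1 - P x) = RE h k l x := by
        rw [Matrix.mul_sub, Matrix.mul_one, flat_right hT hS hP hx k l, sub_zero]
      calc σ x * (1 - P x) * (RE h k l x * h x) * ((1 - P x)ᴴ * (σ x)ᴴ)
          = σ x * ((1 - P x) * RE h k l x) * (h x * (1 - P x)ᴴ) * (σ x)ᴴ := by
            simp only [Matrix.mul_assoc]
        _ = σ x * RE h k l x * ((1 - P x) * h x) * (σ x)ᴴ := by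
            rw [e1, herm_compl (hP.herm x hx)]
        _ = σ x * (RE h k l x * (1 - P x)) * h x * (σ x)ᴴ := by
            simp only [Matrix.mul_assoc]
        _ = _ := by
            rw [e2]
            simp only [Matrix.mul_assoc]
    simp only [h1]
    exact hS.neg x hx u w
  have hinv2 : InvH R (gS (fun x => σ x * (1 - P x)) h) := by
    intro U τ hU x hx u v
    have hxT : x ∈ T ∧ τ x ∈ T := by
      obtain ⟨-, -, γ, hγ⟩ := hU
      exact hEt.mem γ x (τ x) (hγ x hx)
    have e : ∀ y ∈ T, gS (fun x => σ x * (1 - P x)) h y =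
        gS σ h y - gS (fun x => σ x * P x) h y := by
      intro y hy
      rw [hdec y hy, add_sub_cancel_left]
    have h1 : ∀ (X Y : Matrix (Fin n) (Fin n) ℂ) (a b : Cn n),
        hermi (X - Y) a b = hermi X a b - hermi Y a b := by
      intro X Y a b
      unfold hermi
      simp only [Matrix.sub_apply, sub_mul, Finset.sum_sub_distrib]
    rw [e x hxT.1, e (τ x) hxT.2, h1, h1, hS.inv U τ hU x hx u v, hP.inv U τ hU x hx u v]
  have hone : ∀ i j, DifferentiableOn ℂ (fun x => (1 - P x) i j) T := by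
    intro i j
    simp only [Matrix.sub_apply]
    exact (differentiableOn_const _).sub (hP.holo i j)
  refine ⟨⟨holo_mul hS.holo hP.holo, hS.posDef, hS.smooth, hP.inv, hneg1⟩,
    ⟨holo_mul hS.holo hone, hS.posDef, hS.smooth, hinv2, hneg2⟩, fun x hx =>
    ⟨hdec x hx, gS_psd (hS.posDef x hx), gS_psd (hS.posDef x hx),
      fun k l => flat_right hT hS hP hx k l, fun l => cdM_P hT hS hP hx l, fun ε Q => ?_⟩⟩
  refine ⟨?_, ?_, ?_⟩
  · show (ε : ℂ) • (h x * (σ x * P x)ᴴ * (Q x)⁻¹ * (σ x * P x)) =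
      P x * ((ε : ℂ) • (h x * (σ x)ᴴ * (Q x)⁻¹ * σ x)) * P x
    rw [Matrix.mul_smul, Matrix.smul_mul, Matrix.conjTranspose_mul, ← Matrix.mul_assoc (h x),
      ← hP.herm x hx]
    simp only [Matrix.mul_assoc]
  · show ε * (Matrix.trace (gS (fun y => σ y * (1 - P y)) h x * (Q x)⁻¹)).re =
      (Matrix.trace ((1 - P x) * ((ε : ℂ) • (h x * (σ x)ᴴ * (Q x)⁻¹ * σ x)))).re
    have e2 : gS (fun y => σ y * (1 - P y)) h x = σ x * ((1 - P x) * h x) * (σ x)ᴴ :=
      gS_P (P := fun y => 1 - P y) (proj_compl (hP.proj x hx)) (herm_compl (hP.herm x hx))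
    rw [e2, Matrix.mul_smul, Matrix.trace_smul, smul_eq_mul, Complex.re_ofReal_mul]
    congr 2
    have e3 : σ x * ((1 - P x) * h x) * (σ x)ᴴ * (Q x)⁻¹ =
        σ x * ((1 - P x) * h x * (σ x)ᴴ * (Q x)⁻¹) := by
      simp only [Matrix.mul_assoc]
    rw [e3, Matrix.trace_mul_comm]
    simp only [Matrix.mul_assoc]
  · show ε * (Matrix.trace (gS σ h x * (Q x)⁻¹)).re =
      (Matrix.trace ((ε : ℂ) • (h x * (σ x)ᴴ * (Q x)⁻¹ * σ x))).re
    rw [Matrix.trace_smul, smul_eq_mul, Complex.re_ofReal_mul]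
    congr 2
    have e3 : gS σ h x * (Q x)⁻¹ = σ x * (h x * (σ x)ᴴ * (Q x)⁻¹) := by
      unfold gS
      simp only [Matrix.mul_assoc]
    rw [e3, Matrix.trace_mul_comm]

end Pool.Agent.Helper82.HB
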