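import Pool.Agent.Helper82.HB.GoalsB
import Pool.Agent.Helper40.HB.LinR
import Pool.Agent.Helper46.GS.GLG

/-! # HB SDL and SDR: linear algebra -/

open Complex
open scoped ComplexConjugate ComplexOrder Matrix

namespace Pool.Agent.Helper82.HB

open Pool.Agent.Helper44.RBC (sd det_mono det_conj rank_proj)
open Pool.Agent.Helper40.HB (conj_diag_add tr_conj galr)

theorem sdl_core {m : ℕ} (r : ℕ) (h P W : Matrix (Fin m) (Fin m) ℂ) (hh : h.PosDef)
    (hP : P * P = P) (hPh : P * h = h * Pᴴ) (ht : Matrix.trace P = r) (hW : W.PosSemidef)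
    (hWP : Pᴴ * W = W) : 0 ≤ (h * W + (1 - P)).det.re ∧ ∀ t : ℝ, 0 ≤ t →
      t ^ r * (h * W + (1 - P)).det.re ≤ (1 + (t : ℂ) • (h * W)).det.re := by
  have hH : (P * h).IsHermitian := by
    unfold Matrix.IsHermitian
    rw [Matrix.conjTranspose_mul, hh.1.eq, hPh]
  obtain ⟨S, μ, hS, h1, h2⟩ := sd h (P * h) hh hH
  have a1 : S⁻¹ * S = 1 := Matrix.nonsing_inv_mul _ hS
  have a2 : S * S⁻¹ = 1 := Matrix.mul_nonsing_inv _ hS
  have a3 : Sᴴ * (S⁻¹)ᴴ = 1 := by rw [← Matrix.conjTranspose_mul, a1, Matrix.conjTranspose_one]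
  set E : Matrix (Fin m) (Fin m) ℂ := Matrix.diagonal (fun i => (μ i : ℂ)) with hE
  have hPE : P = S * E * S⁻¹ := by
    have h3 : P * (S * Sᴴ) = S * E * Sᴴ := by rw [← h1, h2]
    calc P = P * (S * (Sᴴ * (S⁻¹)ᴴ) * S⁻¹) := by rw [a3, Matrix.mul_one, a2, Matrix.mul_one]
      _ = P * (S * Sᴴ) * (S⁻¹)ᴴ * S⁻¹ := by simp only [Matrix.mul_assoc]
      _ = S * E * (Sᴴ * (S⁻¹)ᴴ) * S⁻¹ := by rw [h3]; simp only [Matrix.mul_assoc]
      _ = S * E * S⁻¹ := by rw [a3, Matrix.mul_one]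
  have hEP : E = S⁻¹ * P * S := by
    rw [hPE]
    calc E = (S⁻¹ * S) * E * (S⁻¹ * S) := by rw [a1, Matrix.one_mul, Matrix.mul_one]
      _ = _ := by simp only [Matrix.mul_assoc]
  have hEE : E * E = E := by
    calc E * E = S⁻¹ * P * (S * S⁻¹) * P * S := by
          conv_lhs => rw [hEP]
          simp only [Matrix.mul_assoc]
      _ = S⁻¹ * (P * P) * S := by rw [a2, Matrix.mul_one]; simp only [Matrix.mul_assoc]
      _ = E := by rw [hP, ← hEP]
  have hμ : ∀ i, μ i = 0 ∨ μ i = 1 := by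
    intro i
    have := congrFun (congrFun hEE i) i
    rw [hE, Matrix.diagonal_mul_diagonal, Matrix.diagonal_apply_eq, Matrix.diagonal_apply_eq] at this
    have h4 : μ i * μ i = μ i := by exact_mod_cast this
    have h5 : μ i * (μ i - 1) = 0 := by linarith
    rcases mul_eq_zero.1 h5 with h | h
    · exact Or.inl h
    · exact Or.inr (by linarith)
  have htr : Matrix.trace E = r := by
    rw [hEP, Matrix.trace_mul_comm, ← Matrix.mul_assoc, a2, Matrix.one_mul, ht]
  have hcard : (Finset.univ.filter fun i => μ i = 1).card = r := by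
    have h3 : Matrix.trace E = ((Finset.univ.filter fun i => μ i = 1).card : ℂ) := by
      rw [hE, Matrix.trace_diagonal, Finset.card_filter]
      push_cast
      refine Finset.sum_congr rfl fun i _ => ?_
      rcases hμ i with h | h <;> simp [h]
    rw [htr] at h3
    exact_mod_cast h3.symm
  set Z : Matrix (Fin m) (Fin m) ℂ := Sᴴ * W * S with hZ
  have hZp : Z.PosSemidef := by
    have := hW.mul_mul_conjTranspose_same Sᴴ
    rwa [Matrix.conjTranspose_conjTranspose] at this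
  have hYZ : h * W = S * Z * S⁻¹ := by
    rw [hZ, h1]
    calc S * Sᴴ * W = S * Sᴴ * W * (S * S⁻¹) := by rw [a2, Matrix.mul_one]
      _ = _ := by simp only [Matrix.mul_assoc]
  have hE1p : (1 - E).PosSemidef := by
    have : 1 - E = Matrix.diagonal (fun i => ((1 - μ i : ℝ) : ℂ)) := by
      rw [hE, ← Matrix.diagonal_one, Matrix.diagonal_sub]
      congr 1; funext i; push_cast; rfl
    rw [this, Matrix.posSemidef_diagonal_iff]
    intro i
    have : 0 ≤ 1 - μ i := by rcases hμ i with h | h <;> rw [h] <;> norm_num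
    exact_mod_cast this
  have hEp : E.PosSemidef := by
    rw [hE, Matrix.posSemidef_diagonal_iff]
    intro i
    have : 0 ≤ μ i := by rcases hμ i with h | h <;> rw [h] <;> norm_num
    exact_mod_cast this
  have hconj : ∀ A : Matrix (Fin m) (Fin m) ℂ, (S * A * S⁻¹).det = A.det := by
    intro A
    rw [Matrix.det_mul, Matrix.det_mul]
    have : S.det * (S⁻¹).det = 1 := by rw [← Matrix.det_mul, a2, Matrix.det_one]
    calc S.det * A.det * (S⁻¹).det = A.det * (S.det * (S⁻¹).det) := by ring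
      _ = _ := by rw [this, mul_one]
  have hWd : (h * W + (1 - P)).det = (Z + (1 - E)).det := by
    have : h * W + (1 - P) = S * (Z + (1 - E)) * S⁻¹ := by
      rw [hYZ, Matrix.mul_add, Matrix.add_mul, Matrix.mul_sub, Matrix.sub_mul, Matrix.mul_one, a2,
        ← hPE]
    rw [this, hconj]
  have hEZ : E * Z = Z := by
    have e1 : P * (h * W) = h * W := by
      rw [← Matrix.mul_assoc, hPh, Matrix.mul_assoc, hWP]
    have e2 : Z = S⁻¹ * (h * W) * S := by
      rw [hYZ]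
      calc Z = (S⁻¹ * S) * Z * (S⁻¹ * S) := by rw [a1, Matrix.one_mul, Matrix.mul_one]
        _ = _ := by simp only [Matrix.mul_assoc]
    calc E * Z = S⁻¹ * P * (S * S⁻¹) * (h * W) * S := by
          conv_lhs => rw [hEP, e2]
          simp only [Matrix.mul_assoc]
      _ = S⁻¹ * (P * (h * W)) * S := by rw [a2, Matrix.mul_one]; simp only [Matrix.mul_assoc]
      _ = Z := by rw [e1, ← e2]
  refine ⟨?_, fun τ hτ => ?_⟩
  · rw [hWd]
    exact (Complex.le_def.1 (hZp.add hE1p).det_nonneg).1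
  · have hτc : (0 : ℂ) ≤ (τ : ℂ) := by exact_mod_cast hτ
    have hdE : ((τ : ℂ) • E + (1 - E)).det = ((τ ^ r : ℝ) : ℂ) := by
      have : (τ : ℂ) • E + (1 - E) = Matrix.diagonal (fun i => ((τ * μ i + (1 - μ i) : ℝ) : ℂ)) := by
        rw [hE, ← Matrix.diagonal_one, Matrix.diagonal_sub, ← Matrix.diagonal_smul,
          Matrix.diagonal_add]
        congr 1; funext i; push_cast; simp
      rw [this, Matrix.det_diagonal, ← Complex.ofReal_prod]
      congr 1
      rw [← hcard, ← Finset.prod_const, Finset.prod_filter]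
      refine Finset.prod_congr rfl fun i _ => ?_
      rcases hμ i with h | h <;> simp [h]
    have hprod : ((τ : ℂ) • E + (1 - E)) * (Z + (1 - E)) = (τ : ℂ) • Z + (1 - E) := by
      have e2 : (1 - E) * Z = 0 := by rw [Matrix.sub_mul, Matrix.one_mul, hEZ, sub_self]
      have e3 : E * (1 - E) = 0 := by rw [Matrix.mul_sub, Matrix.mul_one, hEE, sub_self]
      have e4 : (1 - E) * (1 - E) = 1 - E := by
        rw [Matrix.sub_mul, Matrix.one_mul, e3, sub_zero]
      rw [Matrix.add_mul, Matrix.mul_add, Matrix.mul_add, Matrix.smul_mul, Matrix.smul_mul, hEZ, e2,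
        e3, e4, smul_zero, add_zero, zero_add]
    have hmono := det_mono ((τ : ℂ) • Z + (1 - E)) E ((hZp.smul hτc).add hE1p) hEp
    have hsum : (τ : ℂ) • Z + (1 - E) + E = 1 + (τ : ℂ) • Z := by abel
    rw [hsum, ← hprod, Matrix.det_mul, hdE, Complex.re_ofReal_mul] at hmono
    have h9 : (1 + (τ : ℂ) • (h * W)).det = (1 + (τ : ℂ) • Z).det := by
      have : 1 + (τ : ℂ) • (h * W) = S * (1 + (τ : ℂ) • Z) * S⁻¹ := by
        rw [Matrix.mul_add, Matrix.add_mul, Matrix.mul_one, a2, Matrix.mul_smul, Matrix.smul_mul,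
          ← hYZ]
      rw [this, hconj]
    rw [h9, hWd]
    exact hmono

/-! ## Products -/

theorem prod_lb {ι : Type*} (s : Finset ι) (a : ι → ℝ) (ha : ∀ i ∈ s, 0 ≤ a i) :
    1 + ∑ i ∈ s, a i ≤ ∏ i ∈ s, (1 + a i) := by
  classical
  induction s using Finset.induction_on with
  | empty => simp
  | insert i s hi ih =>
    rw [Finset.sum_insert hi, Finset.prod_insert hi]
    have h1 := ih fun j hj => ha j (Finset.mem_insert_of_mem hj)
    have h2 := ha i (Finset.mem_insert_self i s)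
    have h3 : 0 ≤ ∑ j ∈ s, a j := Finset.sum_nonneg fun j hj => ha j (Finset.mem_insert_of_mem hj)
    nlinarith

theorem prod_nz {n : ℕ} (μ : Fin n → ℝ) (t : ℝ) :
    ∏ i, (1 + t * μ i) = ∏ i ∈ Finset.univ.filter (fun i => μ i ≠ 0), (1 + t * μ i) := by
  rw [Finset.prod_filter]
  refine Finset.prod_congr rfl fun i _ => ?_
  split_ifs with h
  · rfl
  · rw [not_not.1 h]; ring

theorem rank_le {n m : ℕ} {r : ℕ} {f : Matrix (Fin n) (Fin m) ℂ} {h P : Matrix (Fin m) (Fin m) ℂ}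
    (hP : P * P = P) (ht : Matrix.trace P = r) (hf : f * P = f) : (f * h * fᴴ).rank ≤ r := by
  have hrP : P.rank = r := by
    have := rank_proj P hP
    rw [ht] at this
    exact_mod_cast this.symm
  calc (f * h * fᴴ).rank ≤ (f * h).rank := Matrix.rank_mul_le_left _ _
    _ ≤ f.rank := Matrix.rank_mul_le_left _ _
    _ = (f * P).rank := by rw [hf]
    _ ≤ P.rank := Matrix.rank_mul_le_right _ _
    _ = r := hrP

/-- SDR. -/
theorem sdr : S_SDR := by
  intro n m r Q f h P hQ hh hP hPh ht hf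
  obtain ⟨g1, g2⟩ := galr r Q (f * h * fᴴ) hQ (hh.posSemidef.mul_mul_conjTranspose_same f)
    (rank_le hP ht hf)
  refine ⟨g1, fun h0 => ?_⟩
  obtain ⟨e1, -, e2, -⟩ := g2 h0
  refine ⟨?_, e2⟩
  rw [← Matrix.mul_assoc, e1]

/-- SDL. -/
theorem sdl : S_SDL := by
  intro n m r Q f h P hQ hh hP hPh ht hf
  have hβ : (f * h * fᴴ).PosSemidef := hh.posSemidef.mul_mul_conjTranspose_same f
  have hu : IsUnit Q.det := isUnit_iff_ne_zero.2 hQ.det_pos.ne'
  have hW : (fᴴ * Q⁻¹ * f).PosSemidef := by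
    have := hQ.inv.posSemidef.mul_mul_conjTranspose_same fᴴ
    rwa [Matrix.conjTranspose_conjTranspose] at this
  have hWP : Pᴴ * (fᴴ * Q⁻¹ * f) = fᴴ * Q⁻¹ * f := by
    rw [← Matrix.mul_assoc, ← Matrix.mul_assoc, ← Matrix.conjTranspose_mul, hf]
  have hYW : h * fᴴ * Q⁻¹ * f = h * (fᴴ * Q⁻¹ * f) := by simp only [Matrix.mul_assoc]
  obtain ⟨c1, c2⟩ := sdl_core r h P (fᴴ * Q⁻¹ * f) hh hP hPh ht hW hWP
  rw [← hYW] at c1 c2
  have hdet : ∀ z : ℂ, (Q + z • (f * h * fᴴ)).det = Q.det * (1 + z • (h * fᴴ * Q⁻¹ * f)).det := by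
    intro z
    have e1 : Q + z • (f * h * fᴴ) = (1 + (z • f) * (h * fᴴ * Q⁻¹)) * Q := by
      rw [Matrix.add_mul, Matrix.one_mul, Matrix.smul_mul, Matrix.smul_mul]
      congr 2
      calc f * h * fᴴ = f * (h * fᴴ) := by rw [Matrix.mul_assoc]
        _ = f * (h * fᴴ * Q⁻¹ * Q) := by rw [Matrix.nonsing_inv_mul_cancel_right _ _ hu]
        _ = _ := by simp only [Matrix.mul_assoc]
    rw [e1, Matrix.det_mul, Matrix.det_one_add_mul_comm, Matrix.mul_smul, mul_comm]
  have htr : Matrix.trace (f * h * fᴴ * Q⁻¹) = Matrix.trace (h * fᴴ * Q⁻¹ * f) := by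
    have e : f * h * fᴴ * Q⁻¹ = f * (h * fᴴ * Q⁻¹) := by simp only [Matrix.mul_assoc]
    rw [e, Matrix.trace_mul_comm]
  obtain ⟨S, μ, hS, h1, h2, hμ, -, hcard⟩ :=
    Pool.Agent.Helper40.HB.sdr r Q (f * h * fᴴ) hQ hβ (rank_le hP ht hf)
  obtain ⟨-, htr2, -⟩ := tr_conj hS h1 h2
  have hT : (Matrix.trace (h * fᴴ * Q⁻¹ * f)).re = ∑ i, μ i := by
    rw [← htr, htr2, Complex.ofReal_re]
  have hQt : ∀ t : ℝ, (Q + (t : ℂ) • (f * h * fᴴ)).det = Q.det * ((∏ i, (1 + t * μ i) : ℝ) : ℂ) := by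
    intro t
    have e := conj_diag_add h1 h2 1 t
    rw [Complex.ofReal_one, one_smul] at e
    rw [e, det_conj, ← h1]
  have hY : ∀ t : ℝ, (1 + (t : ℂ) • (h * fᴴ * Q⁻¹ * f)).det.re = ∏ i, (1 + t * μ i) := by
    intro t
    have e := hdet t
    rw [hQt t] at e
    have e2 := mul_left_cancel₀ hQ.det_pos.ne' e
    rw [← e2, Complex.ofReal_re]
  refine ⟨hdet, hβ, Pool.Agent.Helper46.GS.trace_mul_nonneg hβ hQ.inv.posSemidef, htr, c1,
    fun t ht0 => ⟨⟨?_, ?_⟩, c2 t ht0, fun lam hlam => ?_⟩⟩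
  · rw [hY, hT, Finset.mul_sum]
    exact prod_lb _ _ fun i _ => mul_nonneg ht0 (hμ i)
  · rw [hY, hT, prod_nz]
    have hs : ∀ i, μ i ≤ ∑ j, μ j := fun i =>
      Finset.single_le_sum (fun j _ => hμ j) (Finset.mem_univ i)
    have hsn : 0 ≤ ∑ j, μ j := Finset.sum_nonneg fun j _ => hμ j
    calc ∏ i ∈ Finset.univ.filter (fun i => μ i ≠ 0), (1 + t * μ i)
        ≤ ∏ i ∈ Finset.univ.filter (fun i => μ i ≠ 0), (1 + t * ∑ j, μ j) :=
          Finset.prod_le_prod (fun i _ => by have := mul_nonneg ht0 (hμ i); linarith)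
            fun i _ => by have := mul_le_mul_of_nonneg_left (hs i) ht0; linarith
      _ = (1 + t * ∑ j, μ j) ^ (Finset.univ.filter fun i => μ i ≠ 0).card := by
          rw [Finset.prod_const]
      _ ≤ _ := pow_le_pow_right₀ (by have := mul_nonneg ht0 hsn; linarith) hcard
  · have hq : 0 ≤ Q.det.re ∧ Q.det.im = 0 := by
      have := Complex.le_def.1 hQ.det_pos.le
      exact ⟨this.1, this.2.symm⟩
    rw [hQt, hQt, Complex.re_mul_ofReal, Complex.re_mul_ofReal]
    have hp : ∏ i, (1 + lam * t * μ i) ≤ lam ^ r * ∏ i, (1 + t * μ i) := by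
      rw [prod_nz, prod_nz μ t]
      have hpn : 0 ≤ ∏ i ∈ Finset.univ.filter (fun i => μ i ≠ 0), (1 + t * μ i) :=
        Finset.prod_nonneg fun i _ => by have := mul_nonneg ht0 (hμ i); linarith
      calc ∏ i ∈ Finset.univ.filter (fun i => μ i ≠ 0), (1 + lam * t * μ i)
          ≤ ∏ i ∈ Finset.univ.filter (fun i => μ i ≠ 0), (lam * (1 + t * μ i)) := by
            refine Finset.prod_le_prod (fun i _ => ?_) fun i _ => ?_
            · have := mul_nonneg (mul_nonneg (by linarith : (0:ℝ) ≤ lam) ht0) (hμ i)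
              linarith
            · nlinarith [mul_nonneg ht0 (hμ i)]
        _ = lam ^ (Finset.univ.filter fun i => μ i ≠ 0).card *
              ∏ i ∈ Finset.univ.filter (fun i => μ i ≠ 0), (1 + t * μ i) := by
            rw [Finset.prod_mul_distrib, Finset.prod_const]
        _ ≤ _ := mul_le_mul_of_nonneg_right (pow_le_pow_right₀ hlam hcard) hpn
    calc Q.det.re * ∏ i, (1 + lam * t * μ i) ≤ Q.det.re * (lam ^ r * ∏ i, (1 + t * μ i)) :=
          mul_le_mul_of_nonneg_left hp hq.1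
      _ = _ := by ring

end Pool.Agent.Helper82.HB
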