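import Pool.Agent.Helper82.HB.GoalsB
import Pool.Agent.Helper46.GS.GLG

/-! # HB SND: `sup ε_j tr (g' Q_j⁻¹) → 0` -/

open Complex Metric Set Filter Topology MeasureTheory
open scoped ContDiff ComplexConjugate ComplexOrder Manifold Matrix

namespace Pool.Agent.Helper82.HB

open Pool.Agent.Helper95.Lin Pool.Agent.Helper16.Abund Pool.Agent.Helper92.Orb
  Pool.Agent.Helper10.SP Pool.Agent.Helper95.RK Pool.Agent.Helper57.HS
  Pool.Agent.Helper15.HS Pool.Agent.Helper15.GS Pool.Agent.Helper57.RBC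
open Pool.Agent.Helper10.RBC (dn)

universe u

theorem snd (hRWT : S_RWT.{u}) (hSBET : S_SBET.{u}) (hSLG : S_SLG.{u}) (hSAV : S_SAV.{u}) :
    S_SND.{u} := by
  intro n m hn T G _ R H σ h ψ D κ hκ r X P s S N φ H' ε Q L d hd
  obtain ⟨K, hK, hRW, -⟩ := hRWT hn T R H D.ket κ hκ
  obtain ⟨-, hS2, hpt⟩ := hSBET T R D.ket.et σ h P r D.sd L.par
  have hT := D.ket.et.isOpen
  set δ : ℝ := d / (2 * K) with hδd
  have hδ : 0 < δ := by positivity
  have hPc : ContinuousOn P T := continuousOn_pi.2 fun i => continuousOn_pi.2 fun j =>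
    (L.par.holo i j).continuousOn
  have hF : ContinuousOn (fun q : Cn n × Matrix (Fin m) (Fin m) ℂ =>
      (Matrix.trace ((1 - P q.1) * q.2)).re + δ) (T ×ˢ univ) := by
    have h1 : ContinuousOn (fun q : Cn n × Matrix (Fin m) (Fin m) ℂ => P q.1) (T ×ˢ univ) :=
      hPc.comp continuous_fst.continuousOn fun q hq => hq.1
    have h2 : ContinuousOn (fun q : Cn n × Matrix (Fin m) (Fin m) ℂ => (1 - P q.1) * q.2)
        (T ×ˢ univ) := by
      have h3 : ContinuousOn (fun q : Cn n × Matrix (Fin m) (Fin m) ℂ => 1 - P q.1)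
        (T ×ˢ univ) := continuousOn_const.sub h1
      have h4 : ContinuousOn (fun q : Cn n × Matrix (Fin m) (Fin m) ℂ => q.2)
        (T ×ˢ univ) := continuous_snd.continuousOn
      rw [continuousOn_iff_continuous_domRestrict] at h3 h4 ⊢
      exact h3.matrix_mul h4
    have h5 : ContinuousOn (fun q : Cn n × Matrix (Fin m) (Fin m) ℂ =>
        Matrix.trace ((1 - P q.1) * q.2)) (T ×ˢ univ) :=
      (continuous_id.matrix_trace).comp_continuousOn h2
    exact (Complex.continuous_re.comp_continuousOn h5).add continuousOn_const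
  have hab : ∀ x ∈ T, δ ≤ (Matrix.trace ((1 - P x) * X x)).re + δ ∧
      (Matrix.trace ((1 - P x) * X x)).re + δ ≤ δ := by
    intro x hx
    have e : (1 - P x) * X x = 0 := by
      rw [Matrix.sub_mul, Matrix.one_mul, (L.XP x hx).2, sub_self]
    rw [e, Matrix.trace_zero, Complex.zero_re, zero_add]
    exact ⟨le_rfl, le_rfl⟩
  have hav := hSAV T R H σ h ψ D κ hκ r X P s S N φ H' ε Q L
    (fun x Y => (Matrix.trace ((1 - P x) * Y)).re + δ) hF δ δ hab δ hδ
  filter_upwards [hav] with j hj x hx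
  have hεj := L.seq.eps j
  have hTk : TkeS T R H (ε j) (H' j) (Q j) :=
    ⟨(L.seq.fam j).ket, hεj, L.seq.tke j, L.seq.epsH j⟩
  have hket' := (L.seq.fam j).ket
  have hQ := (L.seq.tke j).ket
  have hδj : 0 < δ / ε j := div_pos hδ hεj
  obtain ⟨hInv, hlog⟩ := (hSLG T R (fun y => σ y * (1 - P y)) h hS2 (Q j)
    (fun y => ((ε j : ℝ) : ℂ) • H' j y) hQ (fun y hy => by
      have h1 := (hket'.posDef y hy).posSemidef
      exact h1.smul (Complex.zero_le_real.2 hεj.le)) (L.seq.tke j).eq).2 (δ / ε j) hδj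
  obtain ⟨-, -, -, hbd⟩ := hRW (ε j) (H' j) (Q j) hTk
  have ht0 : ∀ y ∈ T, 0 ≤ tS (fun y => σ y * (1 - P y)) h (Q j) y := fun y hy =>
    Pool.Agent.Helper46.GS.trace_mul_nonneg (hpt y hy).2.2.1
      (hQ.posDef y hy).inv.posSemidef
  have hb := hbd (fun y => tS (fun y => σ y * (1 - P y)) h (Q j) y + δ / ε j) hInv
    (fun y hy => by
      have := ht0 y hy
      show 0 < tS (fun y => σ y * (1 - P y)) h (Q j) y + δ / ε j
      linarith) hlog x hx
  have hb' : tS (fun y => σ y * (1 - P y)) h (Q j) x + δ / ε j ≤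
    K * avE T κ (Q j) (fun y => tS (fun y => σ y * (1 - P y)) h (Q j) y + δ / ε j) := hb
  have hE : ε j * avE T κ (Q j) (fun y => tS (fun y => σ y * (1 - P y)) h (Q j) y + δ / ε j) =
      avE T κ (Q j) (fun y => (Matrix.trace ((1 - P y) * XS (ε j) σ h (Q j) y)).re + δ) := by
    unfold avE
    rw [← mul_div_assoc]
    congr 1
    unfold itg
    rw [← integral_const_mul]
    apply setIntegral_congr_fun hT.measurableSet
    intro y hy
    show ε j * (κ y * (Q j y).det.re * (tS (fun y => σ y * (1 - P y)) h (Q j) y + δ / ε j)) =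
      κ y * (Q j y).det.re * ((Matrix.trace ((1 - P y) * XS (ε j) σ h (Q j) y)).re + δ)
    rw [← ((hpt y hy).2.2.2.2.2 (ε j) (Q j)).2.1]
    field_simp
  have hj2 : avE T κ (Q j) (fun y => (Matrix.trace ((1 - P y) * XS (ε j) σ h (Q j) y)).re + δ) ≤
    δ + δ := hj.2
  have h6 := mul_le_mul_of_nonneg_left hb' hεj.le
  have h7 : ε j * (tS (fun y => σ y * (1 - P y)) h (Q j) x + δ / ε j) =
      ε j * tS (fun y => σ y * (1 - P y)) h (Q j) x + δ := by
    field_simp
  have h8 : ε j * (K * avE T κ (Q j)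
      (fun y => tS (fun y => σ y * (1 - P y)) h (Q j) y + δ / ε j)) ≤ K * (δ + δ) := by
    rw [← mul_assoc, mul_comm (ε j) K, mul_assoc, hE]
    exact mul_le_mul_of_nonneg_left hj2 hK.le
  have h9 : K * (δ + δ) = d := by
    rw [hδd]
    field_simp
    ring
  rw [h7] at h6
  linarith

end Pool.Agent.Helper82.HB
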