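import Pool.Agent.Helper26.HB.Goals

/-!
# Packet HB-ED (MP_a47ed5_al): edges of a symmetric polytope on which an alternating form does
not vanish
-/

set_option autoImplicit false

open Filter Topology

namespace Pool.Agent.Helper82.HB

open Pool.Agent.Helper26.HB

/-- `x + ε y ≠ 0` for all small `ε > 0`, unless `x = y = 0`. -/
theorem ev_ne (x y : ℝ) (h : x ≠ 0 ∨ y ≠ 0) : ∀ᶠ ε in 𝓝[>] (0 : ℝ), x + ε * y ≠ 0 := by
  by_cases hx : x = 0
  · have hy : y ≠ 0 := h.resolve_left (fun h' => h' hx)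
    filter_upwards [self_mem_nhdsWithin] with ε hε
    have : (0 : ℝ) < ε := hε
    rw [hx, zero_add]
    exact mul_ne_zero this.ne' hy
  · have hc : Tendsto (fun ε : ℝ => x + ε * y) (𝓝[>] 0) (𝓝 x) := by
      have h1 : Tendsto (fun ε : ℝ => x + ε * y) (𝓝 0) (𝓝 (x + 0 * y)) :=
        Continuous.tendsto (by fun_prop) 0
      rw [zero_mul, add_zero] at h1
      exact h1.mono_left nhdsWithin_le_nhds
    exact hc.eventually_ne hx

theorem ev_lt (x y x' y' : ℝ) (h : x < x') : ∀ᶠ ε in 𝓝[>] (0 : ℝ), x + ε * y < x' + ε * y' := by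
  have hc : Tendsto (fun ε : ℝ => x + ε * y) (𝓝[>] 0) (𝓝 x) := by
    have h1 : Tendsto (fun ε : ℝ => x + ε * y) (𝓝 0) (𝓝 (x + 0 * y)) :=
      Continuous.tendsto (by fun_prop) 0
    rw [zero_mul, add_zero] at h1
    exact h1.mono_left nhdsWithin_le_nhds
  have hc' : Tendsto (fun ε : ℝ => x' + ε * y') (𝓝[>] 0) (𝓝 x') := by
    have h1 : Tendsto (fun ε : ℝ => x' + ε * y') (𝓝 0) (𝓝 (x' + 0 * y')) :=
      Continuous.tendsto (by fun_prop) 0
    rw [zero_mul, add_zero] at h1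
    exact h1.mono_left nhdsWithin_le_nhds
  exact hc.eventually_lt hc' h

/-- A linear functional which does not vanish on a given finite set of non-zero vectors. -/
theorem generic (d : ℕ) (D : Set (E d)) (hD : D.Finite) (h0 : ∀ z ∈ D, z ≠ 0) :
    ∃ η : E d →ₗ[ℝ] ℝ, ∀ z ∈ D, η z ≠ 0 := by
  induction D, hD using Set.Finite.induction_on with
  | empty => exact ⟨0, by simp⟩
  | @insert a s _ hs ih =>
    obtain ⟨η, hη⟩ := ih (fun z hz => h0 z (Set.mem_insert_of_mem _ hz))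
    have ha : a ≠ 0 := h0 a (Set.mem_insert _ _)
    obtain ⟨i, hi⟩ : ∃ i, a i ≠ 0 := by
      by_contra hcon
      push Not at hcon
      exact ha (funext hcon)
    let f : E d →ₗ[ℝ] ℝ := LinearMap.proj i
    have h1 : ∀ᶠ ε in 𝓝[>] (0 : ℝ), η a + ε * f a ≠ 0 := ev_ne _ _ (Or.inr hi)
    have h2 : ∀ᶠ ε in 𝓝[>] (0 : ℝ), ∀ z ∈ s, η z + ε * f z ≠ 0 := by
      rw [Filter.eventually_all_finite hs]
      intro z hz
      exact ev_ne _ _ (Or.inl (hη z hz))
    obtain ⟨ε, h3, h4⟩ := (h1.and h2).exists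
    refine ⟨η + ε • f, ?_⟩
    intro z hz
    rcases Set.mem_insert_iff.mp hz with rfl | hz
    · simpa using h3
    · simpa using h4 z hz

/-- Packet HB-ED. -/
theorem gED : G_ED := by
  intro d P B hP hsym halt hpq
  obtain ⟨p, hp, q, hq, hBpq⟩ : ∃ p ∈ P, ∃ q ∈ P, 0 < B p q := by
    obtain ⟨p, hp, q, hq, h⟩ := hpq
    rcases lt_or_gt_of_ne h with h | h
    · refine ⟨-p, hsym p hp, q, hq, ?_⟩
      rw [map_neg, LinearMap.neg_apply]
      linarith
    · exact ⟨p, hp, q, hq, h⟩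
  -- the finite set of non-zero vectors
  let F : E d × E d × E d → E d := fun t =>
    (B t.1 t.2.2) • (t.2.1 - t.1) - (B t.1 t.2.1) • (t.2.2 - t.1)
  let D1 : Set (E d) := F '' (P ×ˢ (P ×ˢ P))
  let D2 : Set (E d) := (fun t : E d × E d => t.1 - t.2) '' (P ×ˢ P)
  have hD1 : D1.Finite := (hP.prod (hP.prod hP)).image _
  have hD2 : D2.Finite := (hP.prod hP).image _
  let D : Set (E d) := (D1 ∪ D2) \ {0}
  have hD : D.Finite := (hD1.union hD2).subset Set.sdiff_subset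
  obtain ⟨η, hη⟩ := generic d D hD (fun z hz => hz.2)
  let χ : E d → ℝ := fun x => B x q
  have e1 : ∀ᶠ ε in 𝓝[>] (0 : ℝ), ∀ z ∈ D, χ z + ε * η z ≠ 0 := by
    rw [Filter.eventually_all_finite hD]
    intro z hz
    exact ev_ne _ _ (Or.inr (hη z hz))
  have e2 : ∀ᶠ ε in 𝓝[>] (0 : ℝ), ∀ t ∈ P ×ˢ P, χ t.1 < χ t.2 →
      χ t.1 + ε * η t.1 < χ t.2 + ε * η t.2 := by
    rw [Filter.eventually_all_finite (hP.prod hP)]
    intro t _
    by_cases ht : χ t.1 < χ t.2
    · filter_upwards [ev_lt _ (η t.1) _ (η t.2) ht] with ε hε _ using hε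
    · exact Filter.Eventually.of_forall (fun ε h => absurd h ht)
  obtain ⟨ε, h1, h2⟩ := (e1.and e2).exists
  -- the functional `φ0`
  let φ0 : E d →ₗ[ℝ] ℝ := (LinearMap.flip B q) + ε • η
  have hφ0 : ∀ x, φ0 x = χ x + ε * η x := fun x => by
    simp [φ0, χ, LinearMap.flip_apply]
  have hinj : ∀ w ∈ P, ∀ w' ∈ P, φ0 w = φ0 w' → w = w' := by
    intro w hw w' hw' h
    by_contra hne
    have hz : w - w' ∈ D := by
      refine ⟨Or.inr ⟨(w, w'), ⟨hw, hw'⟩, rfl⟩, ?_⟩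
      simp only [Set.mem_singleton_iff]
      exact sub_ne_zero.mpr hne
    apply h1 _ hz
    rw [← hφ0, map_sub, h, sub_self]
  obtain ⟨u, hu, humax⟩ := Set.exists_max_image P φ0 hP ⟨p, hp⟩
  have hustrict : ∀ w ∈ P, w ≠ u → φ0 w < φ0 u := fun w hw hne =>
    lt_of_le_of_ne (humax w hw) (fun h => hne (hinj w hw u hu h))
  have hχu : 0 < χ u := by
    by_contra hcon
    have h3 : χ u < χ p := lt_of_le_of_lt (not_lt.mp hcon) hBpq
    have h4 := h2 (u, p) ⟨hu, hp⟩ h3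
    have h5 := humax p hp
    rw [hφ0, hφ0] at h5
    simp only at h4
    linarith
  let ψ : E d →ₗ[ℝ] ℝ := B u
  have hψu : ψ u = 0 := halt u
  have hψq : 0 < ψ q := hχu
  -- the minimal ratio
  let Pp : Set (E d) := {w | w ∈ P ∧ 0 < ψ w}
  have hPp : Pp.Finite := hP.subset (fun w hw => hw.1)
  obtain ⟨w0, hw0, hmin⟩ := Set.exists_min_image Pp (fun w => (φ0 u - φ0 w) / ψ w) hPp
    ⟨q, hq, hψq⟩
  set s := (φ0 u - φ0 w0) / ψ w0 with hs
  have hspos : 0 < s := by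
    have hne : w0 ≠ u := by
      rintro rfl
      have := hw0.2
      rw [hψu] at this
      exact lt_irrefl _ this
    exact div_pos (sub_pos.mpr (hustrict w0 hw0.1 hne)) hw0.2
  let T : Set (E d) := {w | w ∈ Pp ∧ (φ0 u - φ0 w) / ψ w = s}
  have hT : T.Finite := hPp.subset (fun w hw => hw.1)
  obtain ⟨v, hv, hvmax⟩ := Set.exists_max_image T ψ hT ⟨w0, hw0, rfl⟩
  have hvs : φ0 u - φ0 v = s * ψ v := by
    have := hv.2
    rw [div_eq_iff hv.1.2.ne'] at this
    exact this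
  have hm : 0 < φ0 u := by
    have hne : -u ≠ u := by
      intro h
      have h3 : χ (-u) = - χ u := by simp [χ]
      rw [h] at h3
      linarith
    have h4 := hustrict (-u) (hsym u hu) hne
    rw [map_neg] at h4
    linarith
  let φ : E d →ₗ[ℝ] ℝ := (φ0 u)⁻¹ • (φ0 + s • ψ)
  have hφ : ∀ x, φ x = (φ0 u)⁻¹ * (φ0 x + s * ψ x) := fun x => by simp [φ, mul_add]
  have hle : ∀ w ∈ P, φ0 w + s * ψ w ≤ φ0 u := by
    intro w hw
    by_cases hψ : 0 < ψ w
    · have h3 : s ≤ (φ0 u - φ0 w) / ψ w := hmin w ⟨hw, hψ⟩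
      rw [le_div_iff₀ hψ] at h3
      linarith
    · have h3 := humax w hw
      have h4 : s * ψ w ≤ 0 := mul_nonpos_of_nonneg_of_nonpos hspos.le (not_lt.mp hψ)
      linarith
  refine ⟨u, hu, v, hv.1.1, φ, ?_, ?_, ?_, ?_, ?_⟩
  · rw [hφ, hψu, mul_zero, add_zero, inv_mul_cancel₀ hm.ne']
  · rw [hφ, ← hvs]
    have : φ0 v + (φ0 u - φ0 v) = φ0 u := by ring
    rw [this, inv_mul_cancel₀ hm.ne']
  · exact hv.1.2.ne'
  · intro w hw
    rw [hφ]
    calc (φ0 u)⁻¹ * (φ0 w + s * ψ w) ≤ (φ0 u)⁻¹ * φ0 u :=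
          mul_le_mul_of_nonneg_left (hle w hw) (inv_nonneg.mpr hm.le)
      _ = 1 := inv_mul_cancel₀ hm.ne'
  · intro w hw hw1
    have hw2 : φ0 w + s * ψ w = φ0 u := by
      rw [hφ] at hw1
      field_simp at hw1
      linarith
    by_cases hψ : 0 < ψ w
    · have hwT : w ∈ T := by
        refine ⟨⟨hw, hψ⟩, ?_⟩
        rw [div_eq_iff hψ.ne']
        linarith
      have hwv : ψ w ≤ ψ v := hvmax w hwT
      have hz : ψ v • (w - u) - ψ w • (v - u) = 0 := by
        by_contra hne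
        have hzD : ψ v • (w - u) - ψ w • (v - u) ∈ D := by
          refine ⟨Or.inl ⟨(u, w, v), ⟨hu, hw, hv.1.1⟩, rfl⟩, ?_⟩
          simpa using hne
        apply h1 _ hzD
        rw [← hφ0]
        simp only [map_sub, map_smul, smul_eq_mul]
        have h5 : φ0 w = φ0 u - s * ψ w := by linarith
        have h6 : φ0 v = φ0 u - s * ψ v := by linarith
        rw [h5, h6]
        ring
      refine ⟨ψ w / ψ v, div_nonneg hψ.le hv.1.2.le, (div_le_one hv.1.2).mpr hwv, ?_⟩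
      have h7 : w - u = (ψ w / ψ v) • (v - u) := by
        have h8 : ψ v • (w - u) = ψ w • (v - u) := sub_eq_zero.mp hz
        calc w - u = (ψ v)⁻¹ • (ψ v • (w - u)) := by
              rw [smul_smul, inv_mul_cancel₀ hv.1.2.ne', one_smul]
          _ = (ψ w / ψ v) • (v - u) := by
              rw [h8, smul_smul, div_eq_inv_mul]
      rw [← h7]
      abel
    · have h4 : s * ψ w ≤ 0 := mul_nonpos_of_nonneg_of_nonpos hspos.le (not_lt.mp hψ)
      have hwu : w = u := by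
        by_contra hne
        have := hustrict w hw hne
        linarith
      refine ⟨0, le_rfl, zero_le_one, ?_⟩
      rw [zero_smul, add_zero, hwu]

end Pool.Agent.Helper82.HB
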