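import Pool.Agent.Helper82.HB.HOUT
import Pool.Agent.Helper82.HB.SBET
import Pool.Agent.Helper82.HB.SDL
import Pool.Agent.Helper82.HB.SND
import Pool.Agent.Helper10.HB.HB5
import Pool.Agent.Helper10.HB.HNUL
import Pool.Agent.Helper10.HB.SNK
import Pool.Agent.Helper15.HB.HCLO
import Pool.Agent.Helper15.HB.HFL
import Pool.Agent.Helper29.HL.HLIM
import Pool.Agent.Helper40.HB.SHM
import Pool.Agent.Helper40.HB.SVP
import Pool.Agent.Helper57.HX.AsmH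
import Pool.Agent.Helper57.RBC.AsmE
import Pool.Agent.Helper15.GS.Main

/-! # HB: assembly of the output on the étale relation -/

open Complex Metric Set Filter Topology MeasureTheory
open scoped ContDiff ComplexConjugate ComplexOrder Manifold Matrix

namespace Pool.Agent.Helper82.HB.Asm

open Pool.Agent.Helper95.Lin Pool.Agent.Helper16.Abund Pool.Agent.Helper92.Orb
  Pool.Agent.Helper10.SP Pool.Agent.Helper95.RK Pool.Agent.Helper57.HS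
  Pool.Agent.Helper15.HS Pool.Agent.Helper10.HS Pool.Agent.Helper15.RK
  Pool.Agent.Helper10.SP.Asm Pool.Agent.Helper15.HS.Asm Pool.Agent.Helper15.GS
  Pool.Agent.Helper15.GS.Asm Pool.Agent.Helper57.RBC Pool.Agent.Helper57.RBC.Asm
  Pool.Agent.Helper57.HX Pool.Agent.Helper57.HX.Asm Pool.Agent.Helper82.HB

universe u

theorem hb_AYG : S_AYG.{u} := Pool.Agent.Helper57.HS.Asm.t_AYG

theorem hb_SBET : S_SBET.{u} := sbet
theorem hb_SDL : S_SDL := sdl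
theorem hb_SDR : S_SDR := sdr
theorem hb_SAV : S_SAV.{u} := Pool.Agent.Helper40.HB.sav t_NULL0 t_DETI
theorem hb_SRLV : S_SRLV.{u} := Pool.Agent.Helper40.HB.srlv t_WIRT t_RLV t_RFAM t_RHOI t_MOMG
theorem hb_SND : S_SND.{u} := snd (t_RWT hb_AYG) hb_SBET h_SLG hb_SAV
theorem hb_SNK : S_SNK.{u} :=
  Pool.Agent.Helper10.HB.snk t_WIRT t_CMPG t_RHOI hb_SRLV hb_SND hb_SAV hb_SBET hb_SDL t_RDL
    t_TRC t_NULL0
theorem hb_SVP : S_SVP.{u} :=
  Pool.Agent.Helper40.HB.svp hb_SRLV hb_SAV hb_SBET hb_SDL t_RHOI t_NULL0 t_DETI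
theorem hb_SHM : S_SHM.{u} :=
  Pool.Agent.Helper40.HB.shm hb_SBET hb_SDL t_TRC (t_VOLP t_MOMG) t_MOMG t_RHOI t_RHB
theorem hb_HB5 : S_HB5.{u} :=
  Pool.Agent.Helper10.HB.hb5 t_PUE t_TRI t_NULL0 t_TRC t_KETP t_RHOI t_MOMG h_SCL hb_SBET hb_SDR
theorem hb_HNUL : S_HNUL.{u} := Pool.Agent.Helper10.HB.hnul t_WIRT t_MCAL t_CSY
theorem hb_HFL : Pool.Agent.Helper15.HB.S_HFL := Pool.Agent.Helper15.HB.hfl t_WIRT
theorem hb_HCLO : Pool.Agent.Helper15.HB.S_HCLO.{u} :=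
  Pool.Agent.Helper15.HB.hclo t_WIRT t_PUE t_DETI Pool.Agent.Helper15.RK.Asm.t_ST2A
    Pool.Agent.Helper15.RK.Asm.t_POSK
theorem hb_HLIM : S_HLIM.{u} :=
  Pool.Agent.Helper29.HL.hlim t_ARRB t_SDB t_SDK h_SCL (t_HLC hb_AYG) hb_HFL hb_HCLO

/-- The output on the étale relation, without hypotheses. -/
theorem t_HOUT : S_HOUT.{u} :=
  hout t_PUE t_KAPI t_RHOI (t_VOLP t_MOMG) t_HX (t_XEX hb_AYG) (t_XBK hb_AYG) hb_HLIM hb_SBET
    hb_SNK hb_SVP hb_SHM hb_HB5 hb_HNUL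

end Pool.Agent.Helper82.HB.Asm
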