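import Pool.Agent.Helper82.HB.GoalsB
import Pool.Agent.Helper57.HX.Ex

/-! # HB SDM: pointwise bounds -/

open Complex Metric Set Filter Topology MeasureTheory
open scoped ContDiff ComplexConjugate ComplexOrder Manifold Matrix

namespace Pool.Agent.Helper82.HB

open Pool.Agent.Helper95.Lin Pool.Agent.Helper10.SP Pool.Agent.Helper57.HS

theorem det_smul_re {n : ℕ} (c : ℝ) (H : Matrix (Fin n) (Fin n) ℂ) :
    (((c : ℂ) • H).det).re = c ^ n * H.det.re := by
  rw [Matrix.det_smul, Fintype.card_fin, ← Complex.ofReal_pow, Complex.re_ofReal_mul]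

/-- SDM. -/
theorem sdm (hTRC : Pool.Agent.Helper95.HS.S_TRC) : S_SDM := by
  intro n Q H Y hQ hH
  refine ⟨fun hY => Pool.Agent.Helper57.HX.tr_dom hQ hY, fun c hc h1 => ?_, fun c hc h1 => ?_⟩
  · have h2 := (hTRC ((c : ℂ) • H) Q (hH.smul (Complex.zero_lt_real.2 hc))).2.2.2.1 h1
    rwa [det_smul_re] at h2
  · have h2 := (hTRC Q ((c : ℂ) • H) hQ).2.2.2.1 h1
    rwa [det_smul_re] at h2

end Pool.Agent.Helper82.HB
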